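import Pool.Agent.K3h43.NWS.Off

/-!
# Conjugation of derivations of the tensor powers
-/

set_option autoImplicit false
set_option linter.unusedSectionVars false
set_option linter.unusedSimpArgs false
set_option backward.isDefEq.respectTransparency false
set_option backward.defeqAttrib.useBackward true

open CategoryTheory Limits MonoidalCategory
open Pool.Agent.Y112.SR Pool.Agent.Y112.KD Pool.Agent.Y112.SC Pool.Agent.K3h63.CC
open Pool.Agent.K3h43.NWS

namespace Pool.Agent.K3h43.ORD

universe v u w

open Functor.LaxMonoidal Functor.OplaxMonoidal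

section

variable {C : Type u} [Category.{v} C] [Preadditive C] [MonoidalCategory C] [SymmetricCategory C]
  {K : Type w} [Field K] (R : SuperRealisation C K)

lemma tw_comp {X : C} (g g' : R.H.obj X ⟶ R.H.obj X) (n : ℕ) :
    tw R (g ≫ g') n = tw R g n ≫ tw R g' n := by
  induction n with
  | zero => rw [tw_zero, tw_zero, tw_zero, Category.comp_id]
  | succ n ih => rw [tw_succ, tw_succ, tw_succ, bx_comp, ih]

lemma tw_one (X : C) (n : ℕ) : tw R (𝟙 (R.H.obj X)) n = 𝟙 _ := by
  induction n with
  | zero => rfl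
  | succ n ih => rw [tw_succ, ih, bx_one]

lemma tw_swap (h2 : (2 : K) ≠ 0) {X : C} {g : R.H.obj X ⟶ R.H.obj X}
    (hg : g ≫ R.par X = R.par X ≫ g) {n : ℕ} {f : tp X n ⟶ tp X n} (hf : IsSwap X n f) :
    tw R g n ≫ R.H.map f = R.H.map f ≫ tw R g n := by
  induction hf with
  | last n =>
    have e0 : tw R g (n + 2) = bx R (bx R (tw R g n) g) g := rfl
    rw [e0]
    exact bx_sw R h2 (Q := tp X n) (tw R g n) g g hg hg
  | lift n f hf ih =>
    rw [map_whiskerRight_eq, tw_succ, bx_comp, bx_comp, ih, Category.comp_id, Category.id_comp]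

lemma tw_der {X : C} {g z z' : R.H.obj X ⟶ R.H.obj X} (h : g ≫ z = z' ≫ g) (n : ℕ) :
    tw R g n ≫ der R false z n = der R false z' n ≫ tw R g n := by
  induction n with
  | zero => rw [der_zero, der_zero, zero_comp, comp_zero]
  | succ n ih =>
    rw [der_succ, der_succ, tw_succ, sg_false, Preadditive.comp_add, Preadditive.add_comp,
      bx_comp, bx_comp, bx_comp, bx_comp, ih, h, Category.comp_id, Category.id_comp,
      Category.comp_id, Category.id_comp]

end

section

variable {C : Type u} [Category.{v} C] [Preadditive C] [Linear ℚ C] [MonoidalCategory C]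
  [SymmetricCategory C] {K : Type w} [Field K] (R : SuperRealisation C K)

lemma tw_adjoin {X : C} {g : R.H.obj X ⟶ R.H.obj X} (hg : g ≫ R.par X = R.par X ≫ g) {n : ℕ}
    {e : End (tp X n)} (he : e ∈ Algebra.adjoin ℚ {f : End (tp X n) | IsSwap X n f}) :
    tw R g n ≫ R.H.map e = R.H.map e ≫ tw R g n := by
  have hK := R_charZero R
  induction he using Algebra.adjoin_induction with
  | mem f hf => exact tw_swap R two_ne_zero hg hf
  | algebraMap q =>
    have h1 : (algebraMap ℚ (End (tp X n)) q : tp X n ⟶ tp X n) = q • 𝟙 _ := by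
      rw [Algebra.algebraMap_eq_smul_one]
      rfl
    rw [h1, R_smul, CategoryTheory.Functor.map_id, Linear.smul_comp, Linear.comp_smul,
      Category.id_comp, Category.comp_id]
  | add x y _ _ hx hy =>
    have h1 : R.H.map (x + y : End (tp X n)) = R.H.map x + R.H.map y := R.H.map_add
    rw [h1, Preadditive.add_comp, Preadditive.comp_add, hx, hy]
  | mul x y _ _ hx hy =>
    rw [End.mul_def, Functor.map_comp, Category.assoc, ← hx, ← Category.assoc, hy, Category.assoc]

end

section

variable {C : Type u} [Category.{v} C] [Preadditive C] [MonoidalCategory C] [SymmetricCategory C]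
  {K : Type w} [Field K] {R : SuperRealisation C K} {X : C} {n : ℕ}

/-- The trace form. -/
noncomputable def Bf (q : R.H.obj (tp X n) ⟶ R.H.obj (tp X n)) (z z' : R.H.obj X ⟶ R.H.obj X) : K :=
  tr _ (q ≫ der R false z n ≫ der R false z' n)

variable {q : R.H.obj (tp X n) ⟶ R.H.obj (tp X n)}

lemma Bf_add_left (z w z' : R.H.obj X ⟶ R.H.obj X) : Bf q (z + w) z' = Bf q z z' + Bf q w z' := by
  rw [Bf, der_add, Preadditive.add_comp, Preadditive.comp_add, map_add]
  rfl

lemma Bf_add_right (z z' w : R.H.obj X ⟶ R.H.obj X) : Bf q z (z' + w) = Bf q z z' + Bf q z w := by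
  rw [Bf, der_add, Preadditive.comp_add, Preadditive.comp_add, map_add]
  rfl

lemma Bf_smul_left (k : K) (z z' : R.H.obj X ⟶ R.H.obj X) : Bf q (k • z) z' = k * Bf q z z' := by
  rw [Bf, der_smul, Linear.smul_comp, Linear.comp_smul, map_smul, smul_eq_mul]
  rfl

lemma Bf_smul_right (k : K) (z z' : R.H.obj X ⟶ R.H.obj X) : Bf q z (k • z') = k * Bf q z z' := by
  rw [Bf, der_smul, Linear.comp_smul, Linear.comp_smul, map_smul, smul_eq_mul]
  rfl

lemma Bf_sum_left {ι : Type*} (s : Finset ι) (z : ι → (R.H.obj X ⟶ R.H.obj X))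
    (z' : R.H.obj X ⟶ R.H.obj X) : Bf q (∑ i ∈ s, z i) z' = ∑ i ∈ s, Bf q (z i) z' := by
  classical
  induction s using Finset.induction_on with
  | empty =>
    rw [Finset.sum_empty, Finset.sum_empty]
    have := Bf_smul_left (q := q) (0 : K) 0 z'
    simpa using this
  | insert a s ha ih => rw [Finset.sum_insert ha, Finset.sum_insert ha, Bf_add_left, ih]

lemma Bf_sum_right {ι : Type*} (s : Finset ι) (z : R.H.obj X ⟶ R.H.obj X)
    (z' : ι → (R.H.obj X ⟶ R.H.obj X)) : Bf q z (∑ i ∈ s, z' i) = ∑ i ∈ s, Bf q z (z' i) := by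
  classical
  induction s using Finset.induction_on with
  | empty =>
    rw [Finset.sum_empty, Finset.sum_empty]
    have := Bf_smul_right (q := q) (0 : K) z 0
    simpa using this
  | insert a s ha ih => rw [Finset.sum_insert ha, Finset.sum_insert ha, Bf_add_right, ih]

/-- Invariance under conjugation. -/
lemma Bf_conj {g g' : R.H.obj X ⟶ R.H.obj X} (hgg : g ≫ g' = 𝟙 _) (hgg' : g' ≫ g = 𝟙 _)
    (hq : tw R g n ≫ q = q ≫ tw R g n) {z w z' w' : R.H.obj X ⟶ R.H.obj X}
    (h : z ≫ g = g ≫ w) (h' : z' ≫ g = g ≫ w') : Bf q z z' = Bf q w w' := by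
  have h1 : tw R g n ≫ tw R g' n = 𝟙 _ := by rw [← tw_comp, hgg, tw_one]
  have h2 := tw_der R (n := n) h.symm
  have h2' := tw_der R (n := n) h'.symm
  calc Bf q z z' = tr _ ((q ≫ der R false z n ≫ der R false z' n) ≫ (tw R g n ≫ tw R g' n)) := by
        rw [h1, Category.comp_id]
        rfl
    _ = tr _ ((tw R g n ≫ (q ≫ der R false w n ≫ der R false w' n)) ≫ tw R g' n) := by
        congr 1
        simp only [Category.assoc]
        rw [← Category.assoc (der R false z' n), ← h2', ← Category.assoc (tw R g n) q, hq]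
        simp only [Category.assoc]
        rw [← Category.assoc (der R false z n), ← h2]
        simp only [Category.assoc]
    _ = tr _ ((q ≫ der R false w n ≫ der R false w' n) ≫ (tw R g' n ≫ tw R g n)) := by
        rw [Category.assoc, tr_swap]
        simp only [Category.assoc]
    _ = Bf q w w' := by
        rw [← tw_comp, hgg', tw_one, Category.comp_id]
        rfl

/-- Vanishing is invariant under conjugation. -/
lemma zero_conj {g g' : R.H.obj X ⟶ R.H.obj X} (hgg : g' ≫ g = 𝟙 _)
    (hq' : tw R g' n ≫ q = q ≫ tw R g' n)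
    {z w : R.H.obj X ⟶ R.H.obj X}
    (h : z ≫ g = g ≫ w) (hz : q ≫ der R false z n = 0) : q ≫ der R false w n = 0 := by
  have h1 : tw R g' n ≫ tw R g n = 𝟙 _ := by rw [← tw_comp, hgg, tw_one]
  have h2 := tw_der R (n := n) h.symm
  calc q ≫ der R false w n = q ≫ (tw R g' n ≫ tw R g n) ≫ der R false w n := by
        rw [h1, Category.id_comp]
    _ = tw R g' n ≫ (q ≫ der R false z n) ≫ tw R g n := by
        simp only [Category.assoc]
        rw [h2, ← Category.assoc q, ← hq', Category.assoc]
    _ = 0 := by rw [hz, zero_comp, comp_zero]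

end

end Pool.Agent.K3h43.ORD
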