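import Pool.Agent.K3h43.ORD.Conj

/-!
# Diagonal operators with respect to a basis
-/

set_option autoImplicit false
set_option linter.unusedSectionVars false
set_option linter.unusedSimpArgs false
set_option backward.isDefEq.respectTransparency false
set_option backward.defeqAttrib.useBackward true

open CategoryTheory Limits MonoidalCategory
open Pool.Agent.Y112.SR Pool.Agent.Y112.KD Pool.Agent.Y112.SC Pool.Agent.K3h63.CC
open Pool.Agent.K3h43.NWS

namespace Pool.Agent.K3h43.ORD

universe v u w

section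

variable {K : Type w} [Field K] {V : ModuleCat.{w} K} {d : ℕ}

/-- The diagonal operator. -/
noncomputable def dg (b : Module.Basis (Fin d) K V) (c : Fin d → K) : V ⟶ V :=
  ModuleCat.ofHom (b.constr K fun i => c i • b i)

lemma dg_basis (b : Module.Basis (Fin d) K V) (c : Fin d → K) (i : Fin d) :
    (dg b c).hom (b i) = c i • b i := by
  rw [dg, ModuleCat.hom_ofHom, Module.Basis.constr_basis]

lemma hom_ext_basis {W : ModuleCat.{w} K} (b : Module.Basis (Fin d) K V) {f g : V ⟶ W}
    (h : ∀ i, f.hom (b i) = g.hom (b i)) : f = g := by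
  apply ModuleCat.hom_ext
  exact b.ext h

lemma eq_dg (b : Module.Basis (Fin d) K V) (c : Fin d → K) {f : V ⟶ V}
    (h : ∀ i, f.hom (b i) = c i • b i) : f = dg b c :=
  hom_ext_basis b fun i => by rw [h, dg_basis]

/-- The projector to a line. -/
noncomputable def pr (b : Module.Basis (Fin d) K V) (i : Fin d) : V ⟶ V :=
  dg b (Pi.single i 1)

lemma dg_add (b : Module.Basis (Fin d) K V) (c c' : Fin d → K) :
    dg b (c + c') = dg b c + dg b c' := by
  refine (eq_dg b _ fun i => ?_).symm
  have h : (dg b c + dg b c').hom (b i) = (dg b c).hom (b i) + (dg b c').hom (b i) := rfl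
  rw [h, dg_basis, dg_basis, Pi.add_apply, add_smul]

lemma dg_smul (b : Module.Basis (Fin d) K V) (k : K) (c : Fin d → K) :
    dg b (k • c) = k • dg b c := by
  refine (eq_dg b _ fun i => ?_).symm
  have h : (k • dg b c).hom (b i) = k • (dg b c).hom (b i) := rfl
  rw [h, dg_basis, Pi.smul_apply, smul_smul, smul_eq_mul]

lemma dg_one (b : Module.Basis (Fin d) K V) : dg b (fun _ => 1) = 𝟙 _ := by
  refine (eq_dg b _ fun i => ?_).symm
  rw [one_smul]
  rfl

lemma dg_comp (b : Module.Basis (Fin d) K V) (c c' : Fin d → K) :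
    dg b c ≫ dg b c' = dg b (fun i => c i * c' i) := by
  refine eq_dg b _ fun i => ?_
  have h : (dg b c ≫ dg b c').hom (b i) = (dg b c').hom ((dg b c).hom (b i)) := rfl
  rw [h, dg_basis, map_smul, dg_basis, smul_smul]

lemma dg_sum (b : Module.Basis (Fin d) K V) (c : Fin d → K) : dg b c = ∑ i, c i • pr b i := by
  refine (eq_dg b _ fun i => ?_).symm
  have h : (∑ j, c j • pr b j).hom (b i) = ∑ j, c j • (pr b j).hom (b i) := by
    rw [ModuleCat.hom_sum, LinearMap.sum_apply]
    rfl
  rw [h, Finset.sum_eq_single i]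
  · rw [pr, dg_basis, Pi.single_eq_same, one_smul]
  · intro j _ hj
    rw [pr, dg_basis, Pi.single_eq_of_ne (Ne.symm hj), zero_smul, smul_zero]
  · intro h
    exact absurd (Finset.mem_univ i) h

lemma pr_idem (b : Module.Basis (Fin d) K V) (i : Fin d) : pr b i ≫ pr b i = pr b i := by
  rw [pr, dg_comp]
  congr 1
  funext j
  by_cases h : j = i
  · subst h
    simp
  · simp [h]

lemma pr_orth (b : Module.Basis (Fin d) K V) {i j : Fin d} (h : i ≠ j) :
    pr b i ≫ pr b j = 0 := by
  rw [pr, pr, dg_comp]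
  have h1 : (fun k => (Pi.single i (1 : K) : Fin d → K) k * (Pi.single j (1 : K) : Fin d → K) k) =
      (0 : K) • (fun _ => (1 : K)) := by
    funext k
    by_cases hk : k = i
    · subst hk
      simp [h]
    · simp [hk]
  rw [h1, dg_smul, zero_smul]

lemma pr_sum (b : Module.Basis (Fin d) K V) : ∑ i, pr b i = 𝟙 _ := by
  rw [← dg_one b, dg_sum]
  simp

lemma pr_ne (b : Module.Basis (Fin d) K V) (i : Fin d) : pr b i ≠ 0 := by
  intro h
  have h1 := dg_basis b (Pi.single i (1 : K)) i
  have h2 : (dg b (Pi.single i (1 : K))).hom (b i) = 0 := by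
    have h3 : dg b (Pi.single i (1 : K)) = 0 := h
    rw [h3]
    rfl
  rw [h2, Pi.single_eq_same, one_smul] at h1
  exact b.ne_zero i h1.symm

lemma tr_dg (b : Module.Basis (Fin d) K V) (c : Fin d → K) : tr V (dg b c) = ∑ i, c i := by
  rw [tr_apply, LinearMap.trace_eq_matrix_trace K b, Matrix.trace]
  refine Finset.sum_congr rfl fun i _ => ?_
  rw [Matrix.diag_apply, LinearMap.toMatrix_apply, dg_basis, map_smul, Module.Basis.repr_self]
  simp

/-- The change of basis. -/
noncomputable def cb (b b' : Module.Basis (Fin d) K V) : V ⟶ V :=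
  ModuleCat.ofHom (b.constr K b')

lemma cb_basis (b b' : Module.Basis (Fin d) K V) (i : Fin d) : (cb b b').hom (b i) = b' i := by
  rw [cb, ModuleCat.hom_ofHom, Module.Basis.constr_basis]

lemma cb_comp (b b' : Module.Basis (Fin d) K V) : cb b b' ≫ cb b' b = 𝟙 _ := by
  refine hom_ext_basis b fun i => ?_
  have h : (cb b b' ≫ cb b' b).hom (b i) = (cb b' b).hom ((cb b b').hom (b i)) := rfl
  rw [h, cb_basis, cb_basis]
  rfl

lemma dg_cb (b b' : Module.Basis (Fin d) K V) (c : Fin d → K) :
    dg b c ≫ cb b b' = cb b b' ≫ dg b' c := by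
  refine hom_ext_basis b fun i => ?_
  have h : (dg b c ≫ cb b b').hom (b i) = (cb b b').hom ((dg b c).hom (b i)) := rfl
  have h' : (cb b b' ≫ dg b' c).hom (b i) = (dg b' c).hom ((cb b b').hom (b i)) := rfl
  rw [h, h', dg_basis, map_smul, cb_basis, dg_basis]

lemma pr_reindex (b : Module.Basis (Fin d) K V) (σ : Equiv.Perm (Fin d)) (i : Fin d) :
    pr (b.reindex σ) (σ i) = pr b i := by
  refine eq_dg b _ fun j => ?_
  have h1 : b j = (b.reindex σ) (σ j) := by simp
  rw [h1, pr, dg_basis]
  congr 1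
  by_cases h : j = i
  · subst h
    simp
  · rw [Pi.single_eq_of_ne h, Pi.single_eq_of_ne (fun h' => h (σ.injective h'))]

end

end Pool.Agent.K3h43.ORD
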