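import Pool.Agent.K3h43.ORD.Diag

/-!
# The trace form on diagonal operators
-/

set_option autoImplicit false
set_option linter.unusedSectionVars false
set_option linter.unusedSimpArgs false
set_option backward.isDefEq.respectTransparency false
set_option backward.defeqAttrib.useBackward true

open CategoryTheory Limits MonoidalCategory
open Pool.Agent.Y112.SR Pool.Agent.Y112.KD Pool.Agent.Y112.SC Pool.Agent.K3h63.CC
open Pool.Agent.K3h43.NWS

namespace Pool.Agent.K3h43.ORD

universe v u w

/-- two pairs of different elements are conjugate -/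
lemma exists_perm {d : ℕ} {i j i' j' : Fin d} (h : i ≠ j) (h' : i' ≠ j') :
    ∃ σ : Equiv.Perm (Fin d), σ i = i' ∧ σ j = j' := by
  set k := Equiv.swap i i' j with hk
  have hki : k ≠ i' := by
    intro h1
    have h2 : Equiv.swap i i' j = Equiv.swap i i' i := by rw [← hk, h1, Equiv.swap_apply_left]
    exact h ((Equiv.swap i i').injective h2).symm
  refine ⟨(Equiv.swap i i').trans (Equiv.swap k j'), ?_, ?_⟩
  · rw [Equiv.trans_apply, Equiv.swap_apply_left, Equiv.swap_apply_of_ne_of_ne (Ne.symm hki) h']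
  · rw [Equiv.trans_apply, ← hk, Equiv.swap_apply_left]

section

variable {C : Type u} [Category.{v} C] [Preadditive C] [MonoidalCategory C] [SymmetricCategory C]
  {K : Type w} [Field K] [CharZero K] {R : SuperRealisation C K} {X : C} {n : ℕ}
  {q : R.H.obj (tp X n) ⟶ R.H.obj (tp X n)} {d : ℕ}

lemma Bf_pr (hq : ∀ g : R.H.obj X ⟶ R.H.obj X, tw R g n ≫ q = q ≫ tw R g n)
    (b b' : Module.Basis (Fin d) K (R.H.obj X)) (i j : Fin d) :
    Bf q (pr b i) (pr b j) = Bf q (pr b' i) (pr b' j) :=
  Bf_conj (cb_comp b b') (cb_comp b' b) (hq _) (dg_cb b b' _) (dg_cb b b' _)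

lemma Bf_perm (hq : ∀ g : R.H.obj X ⟶ R.H.obj X, tw R g n ≫ q = q ≫ tw R g n)
    (b b' : Module.Basis (Fin d) K (R.H.obj X)) (σ : Equiv.Perm (Fin d)) (i j : Fin d) :
    Bf q (pr b i) (pr b j) = Bf q (pr b' (σ i)) (pr b' (σ j)) := by
  rw [← pr_reindex b σ i, ← pr_reindex b σ j, Bf_pr hq (b.reindex σ) b']

lemma form (hq : ∀ g : R.H.obj X ⟶ R.H.obj X, tw R g n ≫ q = q ≫ tw R g n)
    (b₀ : Module.Basis (Fin d) K (R.H.obj X)) {i₀ i₁ : Fin d} (h01 : i₀ ≠ i₁)
    (b : Module.Basis (Fin d) K (R.H.obj X)) (c : Fin d → K) :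
    Bf q (dg b c) (dg b c) =
      (Bf q (pr b₀ i₀) (pr b₀ i₀) - Bf q (pr b₀ i₀) (pr b₀ i₁)) * ∑ i, c i ^ 2 +
      Bf q (pr b₀ i₀) (pr b₀ i₁) * (∑ i, c i) ^ 2 := by
  classical
  set A := Bf q (pr b₀ i₀) (pr b₀ i₀) with hA
  set A' := Bf q (pr b₀ i₀) (pr b₀ i₁) with hA'
  have h1 : ∀ i, Bf q (pr b i) (pr b i) = A := by
    intro i
    rw [hA, Bf_perm hq b b₀ (Equiv.swap i i₀) i i, Equiv.swap_apply_left]
  have h2 : ∀ i j, i ≠ j → Bf q (pr b i) (pr b j) = A' := by
    intro i j hij
    obtain ⟨σ, hi, hj⟩ := exists_perm hij h01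
    rw [hA', Bf_perm hq b b₀ σ i j, hi, hj]
  have h3 : ∀ i j, Bf q (pr b i) (pr b j) = (A - A') * (if i = j then 1 else 0) + A' := by
    intro i j
    by_cases hij : i = j
    · subst hij
      rw [h1, if_pos rfl]
      ring
    · rw [h2 i j hij, if_neg hij]
      ring
  have h4 : ∀ i, Bf q (c i • pr b i) (∑ j, c j • pr b j) =
      (A - A') * c i ^ 2 + A' * (c i * ∑ j, c j) := by
    intro i
    have h5 : ∀ j, Bf q (c i • pr b i) (c j • pr b j) =
        (if i = j then (A - A') * (c i * c j) else 0) + A' * (c i * c j) := by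
      intro j
      rw [Bf_smul_left, Bf_smul_right, h3]
      by_cases hij : i = j
      · rw [if_pos hij, if_pos hij]
        ring
      · rw [if_neg hij, if_neg hij]
        ring
    rw [Bf_sum_right]
    simp only [h5]
    rw [Finset.sum_add_distrib, Finset.sum_ite_eq Finset.univ i, if_pos (Finset.mem_univ i),
      ← Finset.mul_sum, ← Finset.mul_sum]
    ring
  rw [dg_sum b c, Bf_sum_left]
  simp only [h4]
  rw [Finset.sum_add_distrib, ← Finset.mul_sum, ← Finset.mul_sum, ← Finset.sum_mul]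
  ring

/-- The decomposition attached to a basis. -/
noncomputable def decOf (σ : Bool) (hε : R.par X = (if σ then (-1 : K) else 1) • 𝟙 _)
    (b : Module.Basis (Fin d) K (R.H.obj X)) : Dec R (𝟙 (R.H.obj X)) where
  d := d
  π := pr b
  x := fun _ => 1
  s := fun _ => σ
  idem := pr_idem b
  orth := fun _ _ h => pr_orth b h
  sum := pr_sum b
  ne := pr_ne b
  comm := fun j => by rw [Category.comp_id, Category.id_comp]
  par_pi := fun j => by rw [hε, Linear.smul_comp, Category.id_comp]
  pi_par := fun j => by rw [hε, Linear.comp_smul, Category.comp_id]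
  nil := fun j => by
    rw [Category.comp_id, one_smul, sub_self]
    exact IsNilpotent.zero

/-- Positivity of the trace form. -/
lemma positive (hqq : q ≫ q = q)
    (hder : ∀ a : R.H.obj X ⟶ R.H.obj X, der R false a n ≫ q = q ≫ der R false a n)
    (hq : ∀ g : R.H.obj X ⟶ R.H.obj X, tw R g n ≫ q = q ≫ tw R g n)
    (σ : Bool) (hε : R.par X = (if σ then (-1 : K) else 1) • 𝟙 _)
    (b : Module.Basis (Fin d) K (R.H.obj X)) {i₀ i₁ : Fin d} (h01 : i₀ ≠ i₁) :
    ∃ α : ℚ, 0 ≤ α ∧ Bf q (pr b i₀) (pr b i₀) - Bf q (pr b i₀) (pr b i₁) = α ∧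
      (α = 0 → q ≫ der R false (pr b i₀ - pr b i₁) n = 0) := by
  classical
  obtain ⟨F⟩ := Fam.exists (decOf σ hε b) n
  set z := pr b i₀ - pr b i₁ with hz
  let c : F.ι → ℚ := fun k => (F.m k i₀ : ℚ) - F.m k i₁
  have hT : der R false z n = ∑ k, (c k : K) • F.e k := by
    calc der R false z n = der R false z n ≫ 𝟙 _ := by rw [Category.comp_id]
      _ = _ := by
        rw [← F.sum, Preadditive.comp_sum]
        refine Finset.sum_congr rfl fun k _ => ?_
        have e1 : der R false z n = der R false (pr b i₀) n - der R false (pr b i₁) n := by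
          rw [hz, ← derL_apply, ← derL_apply, ← derL_apply, map_sub]
        have e2 : der R false (pr b i₀) n ≫ F.e k = (F.m k i₀ : K) • F.e k := F.der_e k i₀
        have e3 : der R false (pr b i₁) n ≫ F.e k = (F.m k i₁ : K) • F.e k := F.der_e k i₁
        have e4 : ((c k : ℚ) : K) = (F.m k i₀ : K) - F.m k i₁ := by
          change (((F.m k i₀ : ℚ) - F.m k i₁ : ℚ) : K) = _
          push_cast
          rfl
        rw [e1, Preadditive.sub_comp, e2, e3, ← sub_smul, e4]
  obtain ⟨r, hr, hr'⟩ := posit (R.finite _) F.e F.idem F.orth F.sum c q (der R false z n) hT hqq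
    (hder z).symm (fun x => x ^ 2)
  obtain ⟨hr0, hr1⟩ := hr' fun k => sq_nonneg _
  have hTT : der R false z n ≫ der R false z n = ∑ k, (((c k) ^ 2 : ℚ) : K) • F.e k := by
    rw [hT, diag_mul F.e F.idem F.orth c c]
    refine Finset.sum_congr rfl fun k _ => ?_
    rw [sq]
  have hB : Bf q z z = r := by
    rw [Bf, hTT]
    exact hr
  have hB2 : Bf q z z = 2 * (Bf q (pr b i₀) (pr b i₀) - Bf q (pr b i₀) (pr b i₁)) := by
    have e1 : z = dg b (Pi.single i₀ 1 - Pi.single i₁ 1) := by
      have e2 : (Pi.single i₀ (1 : K) - Pi.single i₁ 1 : Fin d → K) =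
          Pi.single i₀ 1 + (-1 : K) • Pi.single i₁ 1 := by
        rw [neg_one_smul, sub_eq_add_neg]
      rw [hz, e2, dg_add, dg_smul, neg_one_smul, ← sub_eq_add_neg]
      rfl
    rw [e1, form hq b h01 b]
    have s1 : ∑ i, (Pi.single i₀ (1 : K) - Pi.single i₁ 1 : Fin d → K) i = 0 := by
      simp [Finset.sum_sub_distrib]
    have s2 : ∑ i, (Pi.single i₀ (1 : K) - Pi.single i₁ 1 : Fin d → K) i ^ 2 = 2 := by
      have e3 : ∀ i, (Pi.single i₀ (1 : K) - Pi.single i₁ 1 : Fin d → K) i ^ 2 =
          (Pi.single i₀ (1 : K) : Fin d → K) i + (Pi.single i₁ (1 : K) : Fin d → K) i := by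
        intro i
        rw [Pi.sub_apply]
        by_cases h0 : i = i₀
        · subst h0
          simp [h01]
        · by_cases h1 : i = i₁
          · subst h1
            simp [h0]
          · simp [h0, h1]
      simp only [e3]
      rw [Finset.sum_add_distrib]
      simp
      norm_num
    rw [s1, s2]
    ring
  refine ⟨r / 2, by positivity, ?_, fun h0 => ?_⟩
  · rw [hB] at hB2
    push_cast
    rw [hB2]
    field_simp
  · apply hr1
    · linarith
    · intro k hk
      exact pow_eq_zero_iff (two_ne_zero) |>.mp hk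

/-- The vanishing of the form. -/
lemma scalar_of_zero (hq : ∀ g : R.H.obj X ⟶ R.H.obj X, tw R g n ≫ q = q ≫ tw R g n)
    (b : Module.Basis (Fin d) K (R.H.obj X)) {i₀ i₁ : Fin d} (h01 : i₀ ≠ i₁)
    (h : q ≫ der R false (pr b i₀ - pr b i₁) n = 0)
    (b' : Module.Basis (Fin d) K (R.H.obj X)) (c : Fin d → K) :
    q ≫ der R false (dg b' c) n = ((n : K) / d * ∑ i, c i) • q := by
  have h1 : ∀ i j, q ≫ der R false (pr b' i) n = q ≫ der R false (pr b' j) n := by
    intro i j
    by_cases hij : i = j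
    · rw [hij]
    obtain ⟨σ, hi, hj⟩ := exists_perm hij h01
    have e1 : (pr b i₀ - pr b i₁) ≫ cb b (b'.reindex σ) =
        cb b (b'.reindex σ) ≫ (pr b' i - pr b' j) := by
      rw [Preadditive.sub_comp, Preadditive.comp_sub, ← pr_reindex b' σ i, ← pr_reindex b' σ j,
        hi, hj]
      congr 1
      · exact dg_cb b (b'.reindex σ) _
      · exact dg_cb b (b'.reindex σ) _
    have e2 := zero_conj (cb_comp (b'.reindex σ) b) (hq _) e1 h
    have e3 : der R false (pr b' i - pr b' j) n = der R false (pr b' i) n -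
        der R false (pr b' j) n := by
      rw [← derL_apply, ← derL_apply, ← derL_apply, map_sub]
    rw [e3, Preadditive.comp_sub, sub_eq_zero] at e2
    exact e2
  have hd : (d : K) ≠ 0 := by
    have : d ≠ 0 := by
      rintro rfl
      exact i₀.elim0
    exact_mod_cast this
  have hsum : ∀ c : Fin d → K, q ≫ der R false (dg b' c) n =
      (∑ i, c i) • (q ≫ der R false (pr b' i₀) n) := by
    intro c
    rw [dg_sum, ← derL_apply, map_sum, Preadditive.comp_sum, Finset.sum_smul]
    refine Finset.sum_congr rfl fun i _ => ?_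
    rw [map_smul, derL_apply, Linear.comp_smul, h1 i i₀]
  have h2 : (n : K) • q = (d : K) • (q ≫ der R false (pr b' i₀) n) := by
    have e1 := hsum (fun _ => 1)
    rw [dg_one, der_one, Linear.comp_smul, Category.comp_id] at e1
    rw [e1]
    congr 1
    simp
  have h3 : q ≫ der R false (pr b' i₀) n = ((n : K) / d) • q := by
    have e1 := congrArg (fun y => (d : K)⁻¹ • y) h2
    simp only [smul_smul, inv_mul_cancel₀ hd, one_smul] at e1
    rw [← e1]
    congr 1
    field_simp
  rw [hsum, h3, smul_smul]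
  congr 1
  ring

end

end Pool.Agent.K3h43.ORD
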