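import Pool.Agent.K3h43.ORD.Main

/-!
# The Lie algebra of tensor derivations of a realisation
-/

set_option autoImplicit false
set_option linter.unusedSectionVars false
set_option linter.unusedSimpArgs false
set_option backward.isDefEq.respectTransparency false
set_option backward.defeqAttrib.useBackward true

open CategoryTheory Limits MonoidalCategory
open Pool.Agent.Y112.SR Pool.Agent.Y112.KD Pool.Agent.Y112.SC Pool.Agent.K3h63.CC
open Pool.Agent.K3h43.NWS

namespace Pool.Agent.K3h43.ORD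

universe v u w

open Functor.LaxMonoidal Functor.OplaxMonoidal

section

variable {C : Type u} [Category.{v} C] [Preadditive C] [MonoidalCategory C] [SymmetricCategory C]
  {K : Type w} [Field K]

/-- A derivation of the realisation: a natural operator which is a derivation for the tensor
product. -/
@[ext]
structure TDer (R : SuperRealisation C K) where
  op (X : C) : R.H.obj X ⟶ R.H.obj X
  natural {X Y : C} (f : X ⟶ Y) : R.H.map f ≫ op Y = op X ≫ R.H.map f
  unit : op (𝟙_ C) = 0
  tensor (X Y : C) : μ R.H X Y ≫ op (X ⊗ Y) =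
    (op X ▷ R.H.obj Y + R.H.obj X ◁ op Y) ≫ μ R.H X Y

variable {R : SuperRealisation C K}

/-- A grading is a derivation. -/
def SlopeOp.toTDer (θ : SlopeOp R) : TDer R := ⟨θ.op, θ.natural, θ.unit, θ.tensor⟩

lemma TDer.op_tensor (θ : TDer R) (X Y : C) :
    θ.op (X ⊗ Y) = bx R (θ.op X) (𝟙 _) + bx R (𝟙 _) (θ.op Y) := by
  have e0 : θ.op (X ⊗ Y) = δ R.H X Y ≫ (μ R.H X Y ≫ θ.op (X ⊗ Y)) := by
    rw [Functor.Monoidal.δ_μ_assoc]
  rw [e0, θ.tensor, Preadditive.add_comp, Preadditive.comp_add, bx, bx, tensorHom_id,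
    id_tensorHom]

lemma TDer.op_tp (θ : TDer R) (X : C) (n : ℕ) : θ.op (tp X n) = der R false (θ.op X) n := by
  induction n with
  | zero => exact θ.unit
  | succ n ih =>
    rw [der_succ, ← ih, sg_false]
    exact θ.op_tensor (tp X n) X

/-- The sum of two derivations. -/
def TDer.add (a b : TDer R) : TDer R where
  op X := a.op X + b.op X
  natural f := by rw [Preadditive.comp_add, Preadditive.add_comp, a.natural, b.natural]
  unit := by rw [a.unit, b.unit, add_zero]
  tensor X Y := by
    rw [Preadditive.comp_add, a.tensor, b.tensor, ← Preadditive.add_comp,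
      MonoidalPreadditive.add_whiskerRight, MonoidalPreadditive.whiskerLeft_add]
    congr 1
    abel

/-- The multiples of a derivation. -/
def TDer.smul (k : K) (a : TDer R) : TDer R where
  op X := k • a.op X
  natural f := by rw [Linear.comp_smul, Linear.smul_comp, a.natural]
  unit := by rw [a.unit, smul_zero]
  tensor X Y := by
    rw [Linear.comp_smul, a.tensor, MonoidalLinear.smul_whiskerRight,
      MonoidalLinear.whiskerLeft_smul, ← smul_add, Linear.smul_comp]

/-- The zero derivation. -/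
def TDer.zero : TDer R where
  op X := 0
  natural f := by rw [comp_zero, zero_comp]
  unit := rfl
  tensor X Y := by simp

lemma sub_wr {X X' : ModuleCat.{w} K} (x y : X ⟶ X') (Z : ModuleCat.{w} K) :
    (x - y) ▷ Z = x ▷ Z - y ▷ Z := by
  rw [eq_sub_iff_add_eq, ← MonoidalPreadditive.add_whiskerRight, sub_add_cancel]

lemma wl_sub {X X' : ModuleCat.{w} K} (x y : X ⟶ X') (Z : ModuleCat.{w} K) :
    Z ◁ (x - y) = Z ◁ x - Z ◁ y := by
  rw [eq_sub_iff_add_eq, ← MonoidalPreadditive.whiskerLeft_add, sub_add_cancel]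

lemma comm_whisker {X Y : ModuleCat.{w} K} (a b : X ⟶ X) (a' b' : Y ⟶ Y) :
    (a ▷ Y + X ◁ a') ≫ (b ▷ Y + X ◁ b') - (b ▷ Y + X ◁ b') ≫ (a ▷ Y + X ◁ a') =
      (a ≫ b - b ≫ a) ▷ Y + X ◁ (a' ≫ b' - b' ≫ a') := by
  rw [sub_wr, wl_sub, comp_whiskerRight, comp_whiskerRight, whiskerLeft_comp, whiskerLeft_comp]
  simp only [Preadditive.add_comp, Preadditive.comp_add]
  rw [whisker_exchange, whisker_exchange]
  abel

/-- The commutator of two derivations. -/
def TDer.bracket (a b : TDer R) : TDer R where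
  op X := a.op X ≫ b.op X - b.op X ≫ a.op X
  natural {X Y} f := by
    rw [Preadditive.comp_sub, Preadditive.sub_comp, ← Category.assoc, a.natural, Category.assoc,
      b.natural, ← Category.assoc (R.H.map f), b.natural, Category.assoc, a.natural]
    simp only [Category.assoc]
  unit := by rw [a.unit, b.unit, comp_zero, sub_self]
  tensor X Y := by
    have h1 : μ R.H X Y ≫ a.op (X ⊗ Y) ≫ b.op (X ⊗ Y) =
        (a.op X ▷ R.H.obj Y + R.H.obj X ◁ a.op Y) ≫
        (b.op X ▷ R.H.obj Y + R.H.obj X ◁ b.op Y) ≫ μ R.H X Y := by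
      rw [← Category.assoc, a.tensor, Category.assoc, b.tensor]
    have h2 : μ R.H X Y ≫ b.op (X ⊗ Y) ≫ a.op (X ⊗ Y) =
        (b.op X ▷ R.H.obj Y + R.H.obj X ◁ b.op Y) ≫
        (a.op X ▷ R.H.obj Y + R.H.obj X ◁ a.op Y) ≫ μ R.H X Y := by
      rw [← Category.assoc, b.tensor, Category.assoc, a.tensor]
    rw [Preadditive.comp_sub, h1, h2, ← Category.assoc, ← Category.assoc,
      ← Preadditive.sub_comp, comm_whisker]

/-- `x` is the value on `M` of a derivation. -/
def IsValue (R : SuperRealisation C K) (M : C) (x : R.H.obj M ⟶ R.H.obj M) : Prop :=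
  ∃ d : TDer R, d.op M = x

lemma IsValue.add {M : C} {x y : R.H.obj M ⟶ R.H.obj M} (hx : IsValue R M x)
    (hy : IsValue R M y) : IsValue R M (x + y) := by
  obtain ⟨a, rfl⟩ := hx
  obtain ⟨b, rfl⟩ := hy
  exact ⟨a.add b, rfl⟩

lemma IsValue.zero (M : C) : IsValue R M 0 := ⟨TDer.zero, rfl⟩

lemma IsValue.smul {M : C} (k : K) {x : R.H.obj M ⟶ R.H.obj M} (hx : IsValue R M x) :
    IsValue R M (k • x) := by
  obtain ⟨a, rfl⟩ := hx
  exact ⟨TDer.smul k a, rfl⟩

/-- The values of the derivations on `M`. -/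
def W (R : SuperRealisation C K) (M : C) : Submodule K (R.H.obj M ⟶ R.H.obj M) where
  carrier := {x | IsValue R M x}
  add_mem' := IsValue.add
  zero_mem' := IsValue.zero M
  smul_mem' := IsValue.smul

/-- The values of trace zero. -/
noncomputable def W0 (R : SuperRealisation C K) (M : C) :
    Submodule K (R.H.obj M ⟶ R.H.obj M) :=
  W R M ⊓ LinearMap.ker (tr (R.H.obj M))

lemma bracket_mem {M : C} {x y : R.H.obj M ⟶ R.H.obj M} (hx : x ∈ W R M) (hy : y ∈ W R M) :
    x ≫ y - y ≫ x ∈ W0 R M := by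
  obtain ⟨a, rfl⟩ := hx
  obtain ⟨b, rfl⟩ := hy
  refine ⟨⟨a.bracket b, rfl⟩, ?_⟩
  change tr _ _ = 0
  rw [map_sub, tr_swap, sub_self]

end

section

variable {K : Type w} [Field K] {V : ModuleCat.{w} K}

/-- `I` is an ideal of the Lie algebra `L` of endomorphisms of `V`. -/
def IsLieIdeal (L I : Submodule K (V ⟶ V)) : Prop :=
  I ≤ L ∧ ∀ w ∈ L, ∀ x ∈ I, w ≫ x - x ≫ w ∈ I

/-- The Lie algebra `L` of endomorphisms of `V` is simple: it is not commutative, and its ideals are
zero and `L`. -/
def IsSimpleLie (L : Submodule K (V ⟶ V)) : Prop :=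
  (∃ x ∈ L, ∃ y ∈ L, x ≫ y ≠ y ≫ x) ∧ ∀ I : Submodule K (V ⟶ V), IsLieIdeal L I → I = ⊥ ∨ I = L

end

section

variable {C : Type u} [Category.{v} C] [Preadditive C] [MonoidalCategory C] [SymmetricCategory C]
  {K : Type w} [Field K]

/-- The Lie algebra of the values of trace zero of the derivations on `M` is simple. -/
def SimpleLie (R : SuperRealisation C K) (M : C) : Prop := IsSimpleLie (W0 R M)

end

end Pool.Agent.K3h43.ORD
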