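import Mathlib

/-!
# Two polygons with the same second moment
-/

set_option autoImplicit false

namespace Pool.Agent.K3h43.ORD

/-- The value at `k` of the polygon with the slopes `c`. -/
def polygon {d : ℕ} (c : Fin d → ℚ) (k : ℕ) : ℚ :=
  ∑ i ∈ Finset.univ.filter (fun i : Fin d => (i : ℕ) < k), c i

lemma abel_ge (c s : ℕ → ℚ) (k : ℕ) (hc : ∀ i, i < k → c i ≤ c (i + 1))
    (hs : ∀ j, j ≤ k → ∑ i ∈ Finset.range j, s i ≤ 0) :
    c k * ∑ i ∈ Finset.range (k + 1), s i ≤ ∑ i ∈ Finset.range (k + 1), c i * s i := by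
  induction k with
  | zero => simp
  | succ k ih =>
    have h1 := ih (fun i hi => hc i (by omega)) (fun j hj => hs j (by omega))
    have h2 := hc k (by omega)
    have h3 := hs (k + 1) (by omega)
    rw [Finset.sum_range_succ _ (k + 1), Finset.sum_range_succ _ (k + 1)]
    nlinarith [mul_nonneg (sub_nonneg.mpr h2) (neg_nonneg.mpr h3)]

lemma polygon_eq {d : ℕ} (c : Fin d → ℚ) {k : ℕ} (hk : k ≤ d) :
    polygon c k = ∑ i ∈ Finset.range k, if h : i < d then c ⟨i, h⟩ else 0 := by
  set c' : ℕ → ℚ := fun i => if h : i < d then c ⟨i, h⟩ else 0 with hc'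
  have h1 : ∀ i : Fin d, c i = c' i := by
    intro i
    rw [hc']
    simp
  rw [polygon, Finset.sum_filter]
  have h2 : ∀ i : Fin d, (if (i : ℕ) < k then c i else 0) =
      (fun j : ℕ => if j < k then c' j else 0) i := by
    intro i
    simp only [h1]
  rw [Finset.sum_congr rfl fun i _ => h2 i,
    Fin.sum_univ_eq_sum_range (fun j : ℕ => if j < k then c' j else 0) d, ← Finset.sum_filter]
  congr 1
  ext j
  simp only [Finset.mem_filter, Finset.mem_range]
  omega

/-- If the polygon of `c` is above the polygon of `h`, with the same endpoints, then the sum of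
the squares of the `h i` is larger than that of the `c i`, with equality only if `c = h`. -/
theorem eq_of_moment {d : ℕ} {c h : Fin d → ℚ} (hc : Monotone c)
    (hp : ∀ k, k ≤ d → polygon h k ≤ polygon c k) (hd : polygon h d = polygon c d) :
    ∑ i, (h i - c i) ^ 2 ≤ ∑ i, h i ^ 2 - ∑ i, c i ^ 2 := by
  rcases Nat.eq_zero_or_pos d with rfl | hd0
  · simp
  obtain ⟨m, rfl⟩ := Nat.exists_eq_succ_of_ne_zero hd0.ne'
  set c' : ℕ → ℚ := fun i => if h : i < m + 1 then c ⟨i, h⟩ else 0 with hc'
  set s : ℕ → ℚ := fun i => if hi : i < m + 1 then h ⟨i, hi⟩ - c ⟨i, hi⟩ else 0 with hs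
  have hsum : ∀ k, k ≤ m + 1 → ∑ i ∈ Finset.range k, s i = polygon h k - polygon c k := by
    intro k hk
    rw [polygon_eq h hk, polygon_eq c hk, ← Finset.sum_sub_distrib]
    refine Finset.sum_congr rfl fun i _ => ?_
    rw [hs]
    by_cases hi : i < m + 1
    · simp [hi]
    · simp [hi]
  have h1 := abel_ge c' s m
    (by
      intro i hi
      have e1 : c' i = c ⟨i, by omega⟩ := dif_pos (by omega)
      have e2 : c' (i + 1) = c ⟨i + 1, by omega⟩ := dif_pos (by omega)
      rw [e1, e2]
      exact hc (by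
        rw [Fin.mk_le_mk]
        omega))
    (by
      intro j hj
      rw [hsum j (by omega)]
      have := hp j (by omega)
      linarith)
  have h0 : ∑ i ∈ Finset.range (m + 1), s i = 0 := by
    rw [hsum (m + 1) le_rfl]
    have : polygon h (m + 1) = polygon c (m + 1) := hd
    linarith
  rw [h0, mul_zero] at h1
  have h2 : ∑ i ∈ Finset.range (m + 1), c' i * s i = ∑ i, c i * (h i - c i) := by
    rw [← Fin.sum_univ_eq_sum_range (fun i => c' i * s i) (m + 1)]
    refine Finset.sum_congr rfl fun i _ => ?_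
    have e1 : c' i = c i := dif_pos i.isLt
    have e2 : s i = h i - c i := dif_pos i.isLt
    simp only [e1, e2]
  rw [h2] at h1
  have h3 : ∑ i, h i ^ 2 - ∑ i, c i ^ 2 = ∑ i, (h i - c i) ^ 2 + 2 * ∑ i, c i * (h i - c i) := by
    rw [Finset.mul_sum, ← Finset.sum_sub_distrib, ← Finset.sum_add_distrib]
    refine Finset.sum_congr rfl fun i _ => ?_
    ring
  linarith

end Pool.Agent.K3h43.ORD
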