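import Pool.Agent.K3h43.ORD.Form
import Pool.Agent.K3h43.ORD.Poly

/-!
# Slopes of Schur functors
-/

set_option autoImplicit false
set_option linter.unusedSectionVars false
set_option linter.unusedSimpArgs false
set_option backward.isDefEq.respectTransparency false
set_option backward.defeqAttrib.useBackward true

open CategoryTheory Limits MonoidalCategory
open Pool.Agent.Y112.SR Pool.Agent.Y112.KD Pool.Agent.Y112.SC Pool.Agent.K3h63.CC
open Pool.Agent.K3h43.NWS

namespace Pool.Agent.K3h43.ORD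

universe v u w

open Functor.LaxMonoidal Functor.OplaxMonoidal

section

variable {C : Type u} [Category.{v} C] [Preadditive C] [MonoidalCategory C] [SymmetricCategory C]
  {K : Type w} [Field K]

/-- A grading of the realisation by the rational numbers, compatible with the tensor product, given by
the operator which is the multiplication by `r` on the part of degree (slope) `r`. -/
structure SlopeOp (R : SuperRealisation C K) where
  op (X : C) : R.H.obj X ⟶ R.H.obj X
  natural {X Y : C} (f : X ⟶ Y) : R.H.map f ≫ op Y = op X ≫ R.H.map f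
  unit : op (𝟙_ C) = 0
  tensor (X Y : C) : μ R.H X Y ≫ op (X ⊗ Y) =
    (op X ▷ R.H.obj Y + R.H.obj X ◁ op Y) ≫ μ R.H X Y
  diagonal (X : C) : ∃ (b : Module.Basis (Fin (Module.finrank K (R.H.obj X))) K (R.H.obj X))
    (c : Fin (Module.finrank K (R.H.obj X)) → ℚ), ∀ i, (op X).hom (b i) = (c i : K) • b i

variable {R : SuperRealisation C K} (θ : SlopeOp R)

/-- The slopes of `X`, in increasing order and with multiplicities, are the `c i`. -/
def HasSlopes (X : C) (c : Fin (Module.finrank K (R.H.obj X)) → ℚ) : Prop :=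
  Monotone c ∧ ∃ b : Module.Basis (Fin (Module.finrank K (R.H.obj X))) K (R.H.obj X),
    ∀ i, (θ.op X).hom (b i) = (c i : K) • b i

lemma SlopeOp.exists_slopes (X : C) : ∃ c, HasSlopes θ X c := by
  obtain ⟨b, c, h⟩ := θ.diagonal X
  refine ⟨c ∘ Tuple.sort c, Tuple.monotone_sort c, b.reindex (Tuple.sort c).symm, fun i => ?_⟩
  rw [Module.Basis.reindex_apply, Equiv.symm_symm, h]
  rfl

lemma SlopeOp.op_tensor (X Y : C) : θ.op (X ⊗ Y) = bx R (θ.op X) (𝟙 _) + bx R (𝟙 _) (θ.op Y) := by
  have e0 : θ.op (X ⊗ Y) = δ R.H X Y ≫ (μ R.H X Y ≫ θ.op (X ⊗ Y)) := by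
    rw [Functor.Monoidal.δ_μ_assoc]
  rw [e0, θ.tensor, Preadditive.add_comp, Preadditive.comp_add, bx, bx, tensorHom_id,
    id_tensorHom]

lemma SlopeOp.op_tp (X : C) (n : ℕ) : θ.op (tp X n) = der R false (θ.op X) n := by
  induction n with
  | zero => exact θ.unit
  | succ n ih =>
    rw [der_succ, ← ih, sg_false]
    exact θ.op_tensor (tp X n) X

lemma HasSlopes.exists_dg {X : C} {c : Fin (Module.finrank K (R.H.obj X)) → ℚ} (h : HasSlopes θ X c) :
    ∃ b : Module.Basis (Fin (Module.finrank K (R.H.obj X))) K (R.H.obj X),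
      θ.op X = dg b (fun i => (c i : K)) := by
  obtain ⟨-, b, hb⟩ := h
  exact ⟨b, eq_dg b _ hb⟩

lemma HasSlopes.tr_sq {X : C} {c : Fin (Module.finrank K (R.H.obj X)) → ℚ} (h : HasSlopes θ X c) :
    tr _ (θ.op X ≫ θ.op X) = ∑ i, (c i : K) ^ 2 := by
  obtain ⟨b, hb⟩ := h.exists_dg
  rw [hb, dg_comp, tr_dg]
  exact Finset.sum_congr rfl fun i _ => (sq _).symm

end

section

variable {C : Type u} [Category.{v} C] [Preadditive C] [Linear ℚ C] [MonoidalCategory C]
  [SymmetricCategory C] {K : Type w} [Field K] {R : SuperRealisation C K}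

variable {M P : C} {n : ℕ} (i : P ⟶ tp M n) (r : tp M n ⟶ P) (hir : i ≫ r = 𝟙 P)

include hir in
lemma op_P (θ : SlopeOp R) : θ.op P = R.H.map i ≫ der R false (θ.op M) n ≫ R.H.map r := by
  rw [← θ.op_tp, ← θ.natural r, ← Category.assoc, ← Functor.map_comp, hir,
    CategoryTheory.Functor.map_id, Category.id_comp]

include hir in
lemma tr_P (θ : SlopeOp R) :
    tr _ (θ.op P ≫ θ.op P) = Bf (R.H.map (r ≫ i)) (θ.op M) (θ.op M) := by
  have e1 : θ.op P ≫ θ.op P = R.H.map i ≫ (der R false (θ.op M) n ≫ der R false (θ.op M) n) ≫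
      R.H.map r := by
    rw [← θ.op_tp]
    have h1 : R.H.map i ≫ θ.op (tp M n) = θ.op P ≫ R.H.map i := θ.natural i
    have h2 : R.H.map i ≫ R.H.map r = 𝟙 _ := by
      rw [← Functor.map_comp, hir, CategoryTheory.Functor.map_id]
    simp only [Category.assoc]
    rw [← Category.assoc (R.H.map i), h1, Category.assoc, ← Category.assoc (R.H.map i), h1,
      Category.assoc, h2, Category.comp_id]
  rw [e1, Bf, tr_comm (R.finite _) (R.finite _), R.H.map_comp, Category.assoc, tr_swap,
    Category.assoc]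

include hir in
/-- The second moments of the slopes of a Schur functor. -/
theorem moment [CharZero K] (hpar : ∀ g : R.H.obj M ⟶ R.H.obj M, g ≫ R.par M = R.par M ≫ g)
    (σ : Bool) (hσ : R.par M = (if σ then (-1 : K) else 1) • 𝟙 _)
    (he : (r ≫ i : End (tp M n)) ∈ Algebra.adjoin ℚ {f : End (tp M n) | IsSwap M n f}) :
    ∃ α : ℚ, 0 ≤ α ∧
      (∀ (T : SlopeOp R) (h' : Fin (Module.finrank K (R.H.obj P)) → ℚ), HasSlopes T P h' →
        (∃ i j, h' i ≠ h' j) → 0 < α) ∧
      ∀ (N T : SlopeOp R) (c h : Fin (Module.finrank K (R.H.obj M)) → ℚ)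
        (c' h' : Fin (Module.finrank K (R.H.obj P)) → ℚ), HasSlopes N M c → HasSlopes T M h →
        HasSlopes N P c' → HasSlopes T P h' → ∑ i, h i = ∑ i, c i →
        ∑ i, h' i ^ 2 - ∑ i, c' i ^ 2 = α * (∑ i, h i ^ 2 - ∑ i, c i ^ 2) := by
  set q : R.H.obj (tp M n) ⟶ R.H.obj (tp M n) := R.H.map (r ≫ i) with hqdef
  have hqq : q ≫ q = q := by
    rw [hqdef, ← Functor.map_comp, Category.assoc, ← Category.assoc i, hir, Category.id_comp]
  have hder : ∀ a : R.H.obj M ⟶ R.H.obj M, der R false a n ≫ q = q ≫ der R false a n :=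
    fun a => der_adjoin R (s := false) (hpar a) he
  have hq : ∀ g : R.H.obj M ⟶ R.H.obj M, tw R g n ≫ q = q ≫ tw R g n :=
    fun g => tw_adjoin R (hpar g) he
  have hiq : R.H.map i ≫ q = R.H.map i := by
    rw [hqdef, ← Functor.map_comp, ← Category.assoc, hir, Category.id_comp]
  -- if the operator is scalar on the image of `q` then all slopes of `P` are equal
  have hscal : ∀ (T : SlopeOp R) (κ : K), q ≫ der R false (T.op M) n = κ • q →
      T.op P = κ • 𝟙 _ := by
    intro T κ h
    rw [op_P i r hir, ← hiq, Category.assoc, ← Category.assoc q, h, Linear.smul_comp,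
      Linear.comp_smul, ← Category.assoc, hiq, ← Functor.map_comp, hir,
      CategoryTheory.Functor.map_id]
  have hslopes : ∀ (T : SlopeOp R) (κ : K) (h' : Fin (Module.finrank K (R.H.obj P)) → ℚ),
      HasSlopes T P h' → T.op P = κ • 𝟙 _ → ∀ i, (h' i : K) = κ := by
    rintro T κ h' ⟨-, b, hb⟩ hT j
    have h1 := hb j
    rw [hT] at h1
    have h2 : κ • b j = (h' j : K) • b j := h1
    exact (smul_left_injective K (b.ne_zero j) h2).symm
  have hne : ∀ (T : SlopeOp R) (κ : K) (h' : Fin (Module.finrank K (R.H.obj P)) → ℚ),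
      HasSlopes T P h' → (∃ i j, h' i ≠ h' j) → ¬ (T.op P = κ • 𝟙 _) := by
    rintro T κ h' hh ⟨a, b, hab⟩ hT
    have h1 := (hslopes T κ h' hh hT a).trans (hslopes T κ h' hh hT b).symm
    exact hab (by exact_mod_cast h1)
  by_cases hd : Module.finrank K (R.H.obj M) ≤ 1
  · -- the operators are scalar
    have hsc : ∀ (T : SlopeOp R) (h : Fin (Module.finrank K (R.H.obj M)) → ℚ), HasSlopes T M h →
        T.op P = ((n : K) * ((∑ j, h j : ℚ) : K)) • 𝟙 _ := by
      intro T h hh
      apply hscal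
      obtain ⟨-, b, hb⟩ := hh
      have e1 : T.op M = ((∑ j, h j : ℚ) : K) • 𝟙 _ := by
        refine hom_ext_basis b fun j => ?_
        rw [hb]
        have e2 : ∑ j, h j = h j := by
          refine Finset.sum_eq_single j (fun l _ hl => ?_) fun hl => absurd (Finset.mem_univ j) hl
          exact absurd (Fin.ext (by omega)) hl
        rw [e2]
        rfl
      rw [e1, der_smul, der_one, Linear.comp_smul, Linear.comp_smul, Category.comp_id, smul_smul,
        mul_comm]
    refine ⟨1, zero_le_one, fun _ _ _ _ => one_pos, fun N T c h c' h' hc hh hc' hh' hsum => ?_⟩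
    have e1 : ∀ j, c' j = h' j := by
      intro j
      have f1 := hslopes N _ c' hc' (hsc N c hc) j
      have f2 := hslopes T _ h' hh' (hsc T h hh) j
      rw [hsum] at f2
      exact_mod_cast f1.trans f2.symm
    have e2 : ∑ j, h j ^ 2 - ∑ j, c j ^ 2 = 0 := by
      have e3 : ∀ f : Fin (Module.finrank K (R.H.obj M)) → ℚ, ∑ j, f j ^ 2 = (∑ j, f j) ^ 2 := by
        intro f
        by_cases h0 : Module.finrank K (R.H.obj M) = 0
        · have : IsEmpty (Fin (Module.finrank K (R.H.obj M))) := by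
            rw [h0]
            infer_instance
          simp
        · have : Nonempty (Fin (Module.finrank K (R.H.obj M))) :=
            ⟨⟨0, Nat.pos_of_ne_zero h0⟩⟩
          have : Subsingleton (Fin (Module.finrank K (R.H.obj M))) :=
            ⟨fun a b => Fin.ext (by omega)⟩
          obtain ⟨j⟩ := (inferInstance : Nonempty (Fin (Module.finrank K (R.H.obj M))))
          have e4 : ∀ g : Fin (Module.finrank K (R.H.obj M)) → ℚ, ∑ l, g l = g j := by
            intro g
            refine Finset.sum_eq_single j (fun l _ hl => absurd (Subsingleton.elim l j) hl)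
              fun hl => absurd (Finset.mem_univ j) hl
          rw [e4, e4]
      rw [e3, e3, hsum, sub_self]
    rw [e2, mul_zero, sub_eq_zero]
    exact Finset.sum_congr rfl fun j _ => by rw [e1 j]
  · push Not at hd
    set b₀ := Module.finBasis K (R.H.obj M) with hb₀
    let i₀ : Fin (Module.finrank K (R.H.obj M)) := ⟨0, by omega⟩
    let i₁ : Fin (Module.finrank K (R.H.obj M)) := ⟨1, hd⟩
    have h01 : i₀ ≠ i₁ := by
      intro h
      have := congrArg Fin.val h
      simp [i₀, i₁] at this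
    obtain ⟨α, hα, hα1, hα2⟩ := positive hqq hder hq σ hσ b₀ h01
    refine ⟨α, hα, fun T h' hh' hne' => ?_, fun N T c h c' h' hc hh hc' hh' hsum => ?_⟩
    · refine lt_of_le_of_ne hα fun h0 => ?_
      have h1 := hα2 h0.symm
      obtain ⟨h, hh⟩ := T.exists_slopes M
      obtain ⟨b, hb⟩ := hh.exists_dg
      have h2 := scalar_of_zero hq b₀ h01 h1 b (fun j => (h j : K))
      rw [← hb] at h2
      exact hne T _ h' hh' hne' (hscal T _ h2)
    · have key : ∀ (θ : SlopeOp R) (c : Fin (Module.finrank K (R.H.obj M)) → ℚ)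
          (c' : Fin (Module.finrank K (R.H.obj P)) → ℚ), HasSlopes θ M c → HasSlopes θ P c' →
          ∑ j, (c' j : K) ^ 2 = (α : K) * ∑ j, (c j : K) ^ 2 +
            Bf q (pr b₀ i₀) (pr b₀ i₁) * (∑ j, (c j : K)) ^ 2 := by
        intro θ c c' hc hc'
        obtain ⟨b, hb⟩ := hc.exists_dg
        rw [← hc'.tr_sq, tr_P i r hir, hb, form hq b₀ h01 b, hα1]
      have k1 := key N c c' hc hc'
      have k2 := key T h h' hh hh'
      have k3 : (∑ j, (h j : K)) = ∑ j, (c j : K) := by exact_mod_cast hsum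
      have k4 : ((∑ j, h' j ^ 2 - ∑ j, c' j ^ 2 : ℚ) : K) =
          ((α * (∑ j, h j ^ 2 - ∑ j, c j ^ 2) : ℚ) : K) := by
        push_cast
        rw [k1, k2, k3]
        ring
      exact_mod_cast k4

include hir in
/-- If two gradings have the same slopes on `M` then they have the same slopes on `P`. -/
theorem same_slopes [CharZero K] (hpar : ∀ g : R.H.obj M ⟶ R.H.obj M, g ≫ R.par M = R.par M ≫ g)
    (he : (r ≫ i : End (tp M n)) ∈ Algebra.adjoin ℚ {f : End (tp M n) | IsSwap M n f})
    (N T : SlopeOp R) (c : Fin (Module.finrank K (R.H.obj M)) → ℚ) (hN : HasSlopes N M c)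
    (hT : HasSlopes T M c) (c' : Fin (Module.finrank K (R.H.obj P)) → ℚ)
    (hN' : HasSlopes N P c') : HasSlopes T P c' := by
  obtain ⟨b, hb⟩ := hN.exists_dg
  obtain ⟨b', hb'⟩ := hT.exists_dg
  set g := cb b b' with hg
  set g' := cb b' b with hg'
  have h1 : N.op M ≫ g = g ≫ T.op M := by rw [hb, hb']; exact dg_cb b b' _
  have hgg : tw R g n ≫ tw R g' n = 𝟙 _ := by rw [← tw_comp, cb_comp, tw_one]
  have hgg' : tw R g' n ≫ tw R g n = 𝟙 _ := by rw [← tw_comp, cb_comp, tw_one]
  have hir' : R.H.map i ≫ R.H.map r = 𝟙 _ := by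
    rw [← Functor.map_comp, hir, CategoryTheory.Functor.map_id]
  have hq : ∀ g : R.H.obj M ⟶ R.H.obj M, tw R g n ≫ R.H.map r ≫ R.H.map i =
      R.H.map r ≫ R.H.map i ≫ tw R g n := by
    intro g
    have := tw_adjoin R (hpar g) he
    have h2 : R.H.map (r ≫ i) = R.H.map r ≫ R.H.map i := R.H.map_comp r i
    have h3 : R.H.map (r ≫ i : End (tp M n)) = R.H.map r ≫ R.H.map i := h2
    rw [h3] at this
    rw [this, Category.assoc]
  set G := R.H.map i ≫ tw R g n ≫ R.H.map r with hG
  set G' := R.H.map i ≫ tw R g' n ≫ R.H.map r with hG'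
  have hGG : ∀ g g' : R.H.obj M ⟶ R.H.obj M, tw R g n ≫ tw R g' n = 𝟙 _ →
      (R.H.map i ≫ tw R g n ≫ R.H.map r) ≫ (R.H.map i ≫ tw R g' n ≫ R.H.map r) = 𝟙 _ := by
    intro g g' h
    calc (R.H.map i ≫ tw R g n ≫ R.H.map r) ≫ (R.H.map i ≫ tw R g' n ≫ R.H.map r) =
        R.H.map i ≫ (tw R g n ≫ R.H.map r ≫ R.H.map i) ≫ tw R g' n ≫ R.H.map r := by
          simp only [Category.assoc]
      _ = (R.H.map i ≫ R.H.map r) ≫ R.H.map i ≫ (tw R g n ≫ tw R g' n) ≫ R.H.map r := by
          rw [hq g]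
          simp only [Category.assoc]
      _ = 𝟙 _ := by rw [h, hir', Category.id_comp, Category.id_comp, hir']
  have hGc : N.op P ≫ G = G ≫ T.op P := by
    have h2 : R.H.map i ≫ N.op (tp M n) = N.op P ≫ R.H.map i := N.natural i
    have h3 : R.H.map r ≫ T.op P = T.op (tp M n) ≫ R.H.map r := T.natural r
    calc N.op P ≫ G = (N.op P ≫ R.H.map i) ≫ tw R g n ≫ R.H.map r := by
          rw [hG, Category.assoc]
      _ = R.H.map i ≫ (der R false (N.op M) n ≫ tw R g n) ≫ R.H.map r := by
          rw [← h2, N.op_tp]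
          simp only [Category.assoc]
      _ = R.H.map i ≫ tw R g n ≫ T.op (tp M n) ≫ R.H.map r := by
          rw [← tw_der R h1.symm, T.op_tp]
          simp only [Category.assoc]
      _ = G ≫ T.op P := by
          rw [← h3, hG]
          simp only [Category.assoc]
  obtain ⟨hm, β, hβ⟩ := hN'
  have e1 : G ≫ G' = 𝟙 _ := hGG g g' hgg
  have e2 : G' ≫ G = 𝟙 _ := hGG g' g hgg'
  let eG : R.H.obj P ≃ₗ[K] R.H.obj P := LinearEquiv.ofLinearMap G.hom G'.hom
    (by
      have := congrArg ModuleCat.Hom.hom e2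
      exact this)
    (by
      have := congrArg ModuleCat.Hom.hom e1
      exact this)
  refine ⟨hm, β.map eG, fun j => ?_⟩
  have h2 := congrArg (fun z => z.hom (β j)) hGc
  have h3 : (T.op P).hom (G.hom (β j)) = G.hom ((N.op P).hom (β j)) := h2.symm
  have h4 : (β.map eG) j = G.hom (β j) := rfl
  rw [h4, h3, hβ, map_smul]

end

section

variable {C : Type u} [Category.{v} C] [Preadditive C] [MonoidalCategory C] [SymmetricCategory C]
  {K : Type w} [Field K] {R : SuperRealisation C K}

/-- The Newton polygon of `X` is equal to the Hodge polygon. -/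
def Ordinary (N T : SlopeOp R) (X : C) : Prop := ∃ c, HasSlopes N X c ∧ HasSlopes T X c

/-- The Newton polygon of `X` lies on or above the Hodge polygon, and the endpoints are the same. -/
def NewtonAboveHodge (N T : SlopeOp R) (X : C) : Prop :=
  ∀ c h, HasSlopes N X c → HasSlopes T X h →
    (∀ k, k ≤ Module.finrank K (R.H.obj X) → polygon h k ≤ polygon c k) ∧
      polygon h (Module.finrank K (R.H.obj X)) = polygon c (Module.finrank K (R.H.obj X))

/-- The polygon of `X` is not a line segment: there are two different slopes. -/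
def TwoSlopes (T : SlopeOp R) (X : C) : Prop := ∃ h, HasSlopes T X h ∧ ∃ i j, h i ≠ h j

lemma polygon_top {d : ℕ} (c : Fin d → ℚ) : polygon c d = ∑ i, c i := by
  rw [polygon, Finset.filter_true_of_mem fun i _ => i.isLt]

end

section

variable {C : Type u} [Category.{v} C] [Preadditive C] [Linear ℚ C] [MonoidalCategory C]
  [SymmetricCategory C] {K : Type w} [Field K] {R : SuperRealisation C K}

/-- **Ordinary reduction and Schur functors.** -/
theorem schur {M P : C} {n : ℕ} (hM : R.par M = 𝟙 _ ∨ R.par M = -𝟙 _)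
    (hP : IsSchurSummand M P n) :
    ∃ α : ℚ, 0 ≤ α ∧ (∀ T : SlopeOp R, TwoSlopes T P → 0 < α) ∧
      (∀ (N T : SlopeOp R) (c h : Fin (Module.finrank K (R.H.obj M)) → ℚ)
        (c' h' : Fin (Module.finrank K (R.H.obj P)) → ℚ), HasSlopes N M c → HasSlopes T M h →
        HasSlopes N P c' → HasSlopes T P h' → ∑ i, h i = ∑ i, c i →
        ∑ i, h' i ^ 2 - ∑ i, c' i ^ 2 = α * (∑ i, h i ^ 2 - ∑ i, c i ^ 2)) ∧
      (∀ N T : SlopeOp R, Ordinary N T M → Ordinary N T P) ∧
      ∀ N T : SlopeOp R, NewtonAboveHodge N T M → TwoSlopes T P → Ordinary N T P →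
        Ordinary N T M := by
  have hK := R_charZero R
  obtain ⟨i, r, hir, he⟩ := hP
  obtain ⟨σ, hσ⟩ : ∃ σ : Bool, R.par M = (if σ then (-1 : K) else 1) • 𝟙 _ := by
    rcases hM with h | h
    · exact ⟨false, by rw [h]; simp⟩
    · exact ⟨true, by rw [h]; simp⟩
  have hpar : ∀ g : R.H.obj M ⟶ R.H.obj M, g ≫ R.par M = R.par M ≫ g := by
    intro g
    rw [hσ, Linear.comp_smul, Linear.smul_comp, Category.comp_id, Category.id_comp]
  obtain ⟨α, h0, h1, h2⟩ := moment i r hir hpar σ hσ he
  refine ⟨α, h0, fun T ⟨h, hh, hne⟩ => h1 T h hh hne, h2, fun N T ⟨c, hN, hT⟩ => ?_,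
    fun N T hNT ⟨h', hh', hne⟩ ⟨c', hc1, hc2⟩ => ?_⟩
  · obtain ⟨c', hc'⟩ := N.exists_slopes P
    exact ⟨c', hc', same_slopes i r hir hpar he N T c hN hT c' hc'⟩
  · have hα := h1 T h' hh' hne
    obtain ⟨c, hc⟩ := N.exists_slopes M
    obtain ⟨h, hh⟩ := T.exists_slopes M
    obtain ⟨p1, p2⟩ := hNT c h hc hh
    have hsum : ∑ i, h i = ∑ i, c i := by rwa [polygon_top, polygon_top] at p2
    have e1 := h2 N T c h c' c' hc hh hc1 hc2 hsum
    rw [sub_self] at e1
    have e2 : ∑ i, h i ^ 2 - ∑ i, c i ^ 2 = 0 := by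
      rcases mul_eq_zero.mp e1.symm with e | e
      · exact absurd e hα.ne'
      · exact e
    have e3 := eq_of_moment hc.1 p1 p2
    rw [e2] at e3
    have e4 : ∀ i, h i = c i := by
      intro i
      have e5 := Finset.sum_nonneg' (s := Finset.univ) fun i => sq_nonneg (h i - c i)
      have e6 := (Finset.sum_eq_zero_iff_of_nonneg (s := Finset.univ)
        (f := fun i => (h i - c i) ^ 2) fun i _ => sq_nonneg _).mp (le_antisymm e3 e5) i
        (Finset.mem_univ i)
      have e7 : h i - c i = 0 := pow_eq_zero_iff (two_ne_zero) |>.mp e6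
      linarith
    have e5 : h = c := funext e4
    exact ⟨c, hc, e5 ▸ hh⟩

end

end Pool.Agent.K3h43.ORD
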