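import Pool.Agent.K3h43.ORD.SimpleMain

/-!
# Replicas of tensor derivations
-/

set_option autoImplicit false
set_option linter.unusedSectionVars false
set_option linter.unusedSimpArgs false
set_option backward.isDefEq.respectTransparency false
set_option backward.defeqAttrib.useBackward true

open CategoryTheory Limits MonoidalCategory
open Pool.Agent.Y112.SR Pool.Agent.Y112.KD Pool.Agent.Y112.SC Pool.Agent.K3h63.CC
open Pool.Agent.K3h43.NWS

namespace Pool.Agent.K3h43.ORD

universe v u w

open Functor.LaxMonoidal Functor.OplaxMonoidal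

section

variable {K : Type*} [Field K] {V V' : Type*} [AddCommGroup V] [Module K V] [AddCommGroup V']
  [Module K V']

/-- `g` is the multiplication by `φ a` on the generalised eigenspace of `f` for `a`. -/
def IsReplica (φ : K → K) (f g : Module.End K V) : Prop :=
  ∀ (a : K) (v : V), v ∈ f.maxGenEigenspace a → g v = φ a • v

lemma gen_internal [DecidableEq K] [IsAlgClosed K] [Module.Finite K V] (f : Module.End K V) :
    DirectSum.IsInternal fun a : K => f.maxGenEigenspace a :=
  DirectSum.isInternal_submodule_of_iSupIndep_of_iSup_eq_top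
    f.independent_maxGenEigenspace (Module.End.iSup_maxGenEigenspace_eq_top f)

lemma exists_replica [IsAlgClosed K] [Module.Finite K V] (φ : K → K) (f : Module.End K V) :
    ∃ g, IsReplica φ f g := by
  classical
  have h := gen_internal f
  let e := LinearEquiv.ofBijective (DirectSum.coeLinearMap fun a : K => f.maxGenEigenspace a) h
  let t : (DirectSum K fun a : K => f.maxGenEigenspace a) →ₗ[K] V :=
    DirectSum.toModule K K V fun a => φ a • (f.maxGenEigenspace a).subtype
  refine ⟨t ∘ₗ e.symm.toLinearMap, fun a v hv => ?_⟩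
  have h1 : e (DirectSum.lof K K (fun a : K => f.maxGenEigenspace a) a ⟨v, hv⟩) = v := by
    change DirectSum.coeLinearMap _ _ = _
    rw [DirectSum.coeLinearMap_lof]
  have h2 : e.symm v = DirectSum.lof K K (fun a : K => f.maxGenEigenspace a) a ⟨v, hv⟩ :=
    (LinearEquiv.symm_apply_eq e).mpr h1.symm
  change t (e.symm v) = _
  rw [h2]
  change DirectSum.toModule K K V _ _ = _
  rw [DirectSum.toModule_lof]
  rfl

lemma ext_gen [IsAlgClosed K] [Module.Finite K V] (f : Module.End K V) {h h' : V →ₗ[K] V'}
    (H : ∀ (a : K) (v : V), v ∈ f.maxGenEigenspace a → h v = h' v) : h = h' := by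
  have h1 : (⨆ a : K, f.maxGenEigenspace a) ≤ LinearMap.eqLocus h h' :=
    iSup_le fun a v hv => H a v hv
  rw [Module.End.iSup_maxGenEigenspace_eq_top f] at h1
  ext v
  exact h1 trivial

lemma gen_map {f : Module.End K V} {f' : Module.End K V'} {h : V →ₗ[K] V'}
    (H : ∀ v, h (f v) = f' (h v)) {a : K} {v : V} (hv : v ∈ f.maxGenEigenspace a) :
    h v ∈ f'.maxGenEigenspace a := by
  rw [Module.End.mem_maxGenEigenspace] at hv ⊢
  obtain ⟨k, hk⟩ := hv
  refine ⟨k, ?_⟩
  have h1 : ∀ (k : ℕ) (v : V), ((f' - a • (1 : Module.End K V')) ^ k) (h v) =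
      h (((f - a • (1 : Module.End K V)) ^ k) v) := by
    intro k
    induction k with
    | zero => intro v; rfl
    | succ k ih =>
      intro v
      rw [pow_succ, pow_succ, Module.End.mul_apply, Module.End.mul_apply, ← ih]
      congr 1
      simp [H]
  rw [h1, hk, map_zero]

lemma replica_map [IsAlgClosed K] [Module.Finite K V] {φ : K → K} {f g : Module.End K V}
    {f' g' : Module.End K V'} {h : V →ₗ[K] V'} (H : ∀ v, h (f v) = f' (h v))
    (hg : IsReplica φ f g) (hg' : IsReplica φ f' g') (v : V) : h (g v) = g' (h v) := by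
  have h1 : h ∘ₗ g = g' ∘ₗ h := by
    refine ext_gen f fun a v hv => ?_
    change h (g v) = g' (h v)
    rw [hg a v hv, hg' a _ (gen_map H hv), map_smul]
  exact LinearMap.congr_fun h1 v

lemma pow_zero_of_le (z : Module.End K V) (u : V) {i j : ℕ} (hij : i ≤ j)
    (h : (z ^ i) u = 0) : (z ^ j) u = 0 := by
  obtain ⟨l, rfl⟩ := Nat.exists_eq_add_of_le hij
  rw [add_comm, pow_add, Module.End.mul_apply, h, map_zero]

open scoped TensorProduct in
lemma gen_tensor {f : Module.End K V} {f' : Module.End K V'} {a a' : K} {v : V} {v' : V'}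
    (hv : v ∈ f.maxGenEigenspace a) (hv' : v' ∈ f'.maxGenEigenspace a') :
    v ⊗ₜ[K] v' ∈ Module.End.maxGenEigenspace
      (TensorProduct.map f LinearMap.id + TensorProduct.map LinearMap.id f' :
        Module.End K (V ⊗[K] V')) (a + a') := by
  rw [Module.End.mem_maxGenEigenspace] at hv hv' ⊢
  obtain ⟨k, hk⟩ := hv
  obtain ⟨k', hk'⟩ := hv'
  refine ⟨k + k', ?_⟩
  set x : Module.End K V := f - a • 1 with hx
  set y : Module.End K V' := f' - a' • 1 with hy
  have e1 : (TensorProduct.map f LinearMap.id + TensorProduct.map LinearMap.id f' :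
      Module.End K (V ⊗[K] V')) - (a + a') • 1 =
      TensorProduct.map x LinearMap.id + TensorProduct.map LinearMap.id y := by
    apply TensorProduct.ext'
    intro p p'
    simp only [hx, hy, LinearMap.sub_apply, LinearMap.add_apply, TensorProduct.map_tmul,
      LinearMap.smul_apply, Module.End.one_apply, LinearMap.id_apply, TensorProduct.sub_tmul,
      TensorProduct.tmul_sub, TensorProduct.smul_tmul', TensorProduct.tmul_smul, add_smul]
    abel
  have hc : Commute (TensorProduct.map x LinearMap.id : Module.End K (V ⊗[K] V'))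
      (TensorProduct.map LinearMap.id y) := by
    apply TensorProduct.ext'
    intro p p'
    simp only [Module.End.mul_apply, TensorProduct.map_tmul, LinearMap.id_apply]
  rw [e1, hc.add_pow, LinearMap.sum_apply]
  refine Finset.sum_eq_zero fun m hm => ?_
  rw [TensorProduct.map_pow, TensorProduct.map_pow]
  have h1 : ∀ n : ℕ, (LinearMap.id : Module.End K V) ^ n = LinearMap.id := fun n => one_pow n
  have h2 : ∀ n : ℕ, (LinearMap.id : Module.End K V') ^ n = LinearMap.id := fun n => one_pow n
  rw [h1, h2]
  have h3 : ((((k + k').choose m : ℕ) : Module.End K (V ⊗[K] V'))) (v ⊗ₜ[K] v') =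
      ((k + k').choose m) • (v ⊗ₜ[K] v') := by
    rw [← nsmul_one, LinearMap.smul_apply, Module.End.one_apply]
  rw [Module.End.mul_apply, h3, map_nsmul, Module.End.mul_apply, TensorProduct.map_tmul,
    TensorProduct.map_tmul, LinearMap.id_apply, LinearMap.id_apply]
  rcases le_total k m with h | h
  · rw [pow_zero_of_le x v h hk, TensorProduct.zero_tmul, smul_zero]
  · rw [pow_zero_of_le y v' (show k' ≤ k + k' - m by omega) hk', TensorProduct.tmul_zero, smul_zero]

/-- A replica with rational eigenvalues is diagonalisable. -/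
lemma replica_diagonal [IsAlgClosed K] [Module.Finite K V] {φ : K → ℚ} [CharZero K]
    {f g : Module.End K V} (hg : IsReplica (fun a => (φ a : K)) f g) :
    ∃ (b : Module.Basis (Fin (Module.finrank K V)) K V) (c : Fin (Module.finrank K V) → ℚ),
      ∀ i, g (b i) = (c i : K) • b i := by
  classical
  let b := (gen_internal f).collectedBasis fun a => Module.finBasis K (f.maxGenEigenspace a)
  have hfin : Finite (Σ a : K, Fin (Module.finrank K (f.maxGenEigenspace a))) :=
    Module.Finite.finite_basis b
  have : Fintype (Σ a : K, Fin (Module.finrank K (f.maxGenEigenspace a))) := Fintype.ofFinite _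
  have hcard := Module.finrank_eq_card_basis b
  let e := Fintype.equivFinOfCardEq hcard.symm
  refine ⟨b.reindex e, fun i => φ (e.symm i).1, fun i => ?_⟩
  rw [Module.Basis.reindex_apply]
  exact hg _ _ ((gen_internal f).collectedBasis_mem _ _)

end

section

variable {C : Type u} [Category.{v} C] [Preadditive C] [MonoidalCategory C] [SymmetricCategory C]
  {K : Type w} [Field K] [CharZero K] [IsAlgClosed K] {R : SuperRealisation C K}

/-- **Every tensor derivation has a rational replica, which is a grading.** -/
theorem exists_slopeOp (φ : K →+ ℚ) (d : TDer R) :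
    ∃ θ : SlopeOp R, ∀ X : C, IsReplica (fun a => (φ a : K)) (V := R.H.obj X) (d.op X).hom
      (θ.op X).hom := by
  have hfin : ∀ X, Module.Finite K (R.H.obj X) := R.finite
  have hex : ∀ X : C, ∃ g : R.H.obj X ⟶ R.H.obj X,
      IsReplica (fun a => (φ a : K)) (V := R.H.obj X) (d.op X).hom g.hom := by
    intro X
    obtain ⟨g, hg⟩ := exists_replica (fun a => (φ a : K)) ((d.op X).hom : Module.End K (R.H.obj X))
    exact ⟨ModuleCat.ofHom g, hg⟩
  choose g hg using hex
  have hnat : ∀ {X Y : C} (f : X ⟶ Y), R.H.map f ≫ g Y = g X ≫ R.H.map f := by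
    intro X Y f
    apply ModuleCat.hom_ext
    ext v
    have h1 : ∀ v, (R.H.map f).hom ((d.op X).hom v) = (d.op Y).hom ((R.H.map f).hom v) := by
      intro v
      have := congrArg (fun z => z.hom v) (d.natural f)
      exact this.symm
    exact (replica_map h1 (hg X) (hg Y) v).symm
  have hunit : g (𝟙_ C) = 0 := by
    apply ModuleCat.hom_ext
    ext v
    have h1 : v ∈ Module.End.maxGenEigenspace
        ((d.op (𝟙_ C)).hom : Module.End K (R.H.obj (𝟙_ C))) 0 := by
      rw [Module.End.mem_maxGenEigenspace]
      refine ⟨1, ?_⟩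
      rw [d.unit]
      simp
    have h2 : (g (𝟙_ C)).hom v = ((φ 0 : ℚ) : K) • v := hg (𝟙_ C) 0 v h1
    rw [map_zero, Rat.cast_zero, zero_smul] at h2
    exact h2
  have htensor : ∀ X Y : C, μ R.H X Y ≫ g (X ⊗ Y) =
      (g X ▷ R.H.obj Y + R.H.obj X ◁ g Y) ≫ μ R.H X Y := by
    intro X Y
    apply ModuleCat.hom_ext
    apply TensorProduct.ext
    refine ext_gen ((d.op X).hom : Module.End K (R.H.obj X)) fun a v hv => ?_
    refine ext_gen ((d.op Y).hom : Module.End K (R.H.obj Y)) fun a' v' hv' => ?_
    have h1 := gen_tensor hv hv'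
    have h2 : ∀ z, (μ R.H X Y).hom ((TensorProduct.map (d.op X).hom LinearMap.id +
        TensorProduct.map LinearMap.id (d.op Y).hom :
        Module.End K (TensorProduct K (R.H.obj X) (R.H.obj Y))) z) =
        (d.op (X ⊗ Y)).hom ((μ R.H X Y).hom z) := by
      intro z
      have := congrArg (fun y => y.hom z) (d.tensor X Y)
      exact this.symm
    have h3 := gen_map h2 h1
    have h4 := hg (X ⊗ Y) (a + a') _ h3
    have h5 : (g X).hom v = (φ a : K) • v := hg X a v hv
    have h6 : (g Y).hom v' = (φ a' : K) • v' := hg Y a' v' hv'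
    change (g (X ⊗ Y)).hom ((μ R.H X Y).hom (TensorProduct.tmul K v v')) =
      (μ R.H X Y).hom (TensorProduct.tmul K ((g X).hom v) v' +
        TensorProduct.tmul K v ((g Y).hom v'))
    rw [h5, h6]
    refine h4.trans ?_
    change ((φ (a + a') : ℚ) : K) • _ = _
    rw [map_add φ, Rat.cast_add, add_smul, map_add, TensorProduct.tmul_smul,
      ← TensorProduct.smul_tmul', map_smul, map_smul]
    rfl
  refine ⟨⟨g, hnat, hunit, htensor, fun X => replica_diagonal (hg X)⟩, hg⟩

end

end Pool.Agent.K3h43.ORD
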