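import Pool.Agent.K3h43.ORD.Replica

/-!
# Semisimple Lie algebras
-/

set_option autoImplicit false
set_option linter.unusedSectionVars false
set_option linter.unusedSimpArgs false
set_option backward.isDefEq.respectTransparency false
set_option backward.defeqAttrib.useBackward true

open CategoryTheory Limits MonoidalCategory
open Pool.Agent.Y112.SR Pool.Agent.Y112.KD Pool.Agent.Y112.SC Pool.Agent.K3h63.CC
open Pool.Agent.K3h43.NWS

namespace Pool.Agent.K3h43.ORD

universe v u w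

open Functor.LaxMonoidal Functor.OplaxMonoidal

section

variable {C : Type u} [Category.{v} C] [Preadditive C] [MonoidalCategory C] [SymmetricCategory C]
  {K : Type w} [Field K] {R : SuperRealisation C K}

/-- A linear form which vanishes on the commutators vanishes. -/
lemma functional_zero {M : C} (hL : SimpleLie R M) (l : (R.H.obj M ⟶ R.H.obj M) →ₗ[K] K)
    (h : ∀ x ∈ W0 R M, ∀ y ∈ W0 R M, l (x ≫ y - y ≫ x) = 0) : ∀ x ∈ W0 R M, l x = 0 := by
  let I : Submodule K (R.H.obj M ⟶ R.H.obj M) := W0 R M ⊓ LinearMap.ker l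
  have hb : ∀ x ∈ W0 R M, ∀ y ∈ W0 R M, x ≫ y - y ≫ x ∈ I := fun x hx y hy =>
    ⟨bracket_mem (W0_le hx) (W0_le hy), h x hx y hy⟩
  rcases hL.2 I ⟨fun x hx => hx.1, fun w hw x hx => hb w hw x hx.1⟩ with h | h
  · obtain ⟨⟨x, hx, y, hy, hxy⟩, -⟩ := hL
    have h1 := hb x hx y hy
    rw [h] at h1
    exact absurd (sub_eq_zero.mp ((Submodule.mem_bot K).mp h1)) hxy
  · intro x hx
    have h1 : x ∈ I := by rw [h]; exact hx
    exact h1.2

/-- The trace forms are proportional. -/
theorem proportional' [IsAlgClosed K] {M P : C} (hL : SimpleLie R M)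
    {ρ : (R.H.obj M ⟶ R.H.obj M) →ₗ[K] (R.H.obj P ⟶ R.H.obj P)}
    (hρ : ∀ x ∈ W0 R M, ∀ y ∈ W0 R M, ρ (x ≫ y - y ≫ x) = ρ x ≫ ρ y - ρ y ≫ ρ x)
    (hnd : ∃ x ∈ W0 R M, ∃ y ∈ W0 R M, tr _ (x ≫ y) ≠ 0) :
    ∃ c : K, ∀ x ∈ W0 R M, ∀ y ∈ W0 R M, tr _ (ρ x ≫ ρ y) = c * tr _ (x ≫ y) := by
  let BL := (TL (R.H.obj P)).compl₁₂ ρ ρ
  have hBL : ∀ x y, BL x y = tr _ (ρ x ≫ ρ y) := fun x y => rfl
  have hTinv : ∀ w ∈ W0 R M, ∀ x ∈ W0 R M, ∀ y ∈ W0 R M,
      TL (R.H.obj M) (w ≫ x - x ≫ w) y = TL (R.H.obj M) x (y ≫ w - w ≫ y) :=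
    fun w _ x _ y _ => tr_inv x y w
  have hBinv : ∀ w ∈ W0 R M, ∀ x ∈ W0 R M, ∀ y ∈ W0 R M,
      BL (w ≫ x - x ≫ w) y = BL x (y ≫ w - w ≫ y) := by
    intro w hw x hx y hy
    rw [hBL, hBL, hρ w hw x hx, hρ y hy w hw]
    exact tr_inv _ _ _
  have hnd' : ∀ x ∈ W0 R M, (∀ y ∈ W0 R M, TL (R.H.obj M) x y = 0) → x = 0 := by
    intro x hx h
    by_contra h0
    obtain ⟨a, ha, b, hb, hab⟩ := hnd
    exact hab (radical hL (TL (R.H.obj M)) hTinv hx h0 h a ha b hb)
  have hfin0 : Module.Finite K (R.H.obj M) := R.finite M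
  have hfin : Module.Finite K (R.H.obj M ⟶ R.H.obj M) :=
    Module.Finite.equiv (ModuleCat.homLinearEquiv (S := K)).symm
  let A : (W0 R M) →ₗ[K] Module.Dual K (W0 R M) := (TL (R.H.obj M)).domRestrict₁₂ _ _
  let B : (W0 R M) →ₗ[K] Module.Dual K (W0 R M) := BL.domRestrict₁₂ _ _
  have hA : Function.Injective A := by
    rw [injective_iff_map_eq_zero]
    intro x hx
    apply Subtype.ext
    refine hnd' x x.2 fun y hy => ?_
    exact congrArg (fun f => f ⟨y, hy⟩) hx
  let E := A.linearEquivOfInjective hA Subspace.dual_finrank_eq.symm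
  let S : Module.End K (W0 R M) := E.symm.toLinearMap ∘ₗ B
  have hnt : Nontrivial (W0 R M) := by
    obtain ⟨⟨x, hx, y, hy, hxy⟩, -⟩ := hL
    refine ⟨⟨⟨x ≫ y - y ≫ x, bracket_mem (W0_le hx) (W0_le hy)⟩, 0, fun h => hxy ?_⟩⟩
    exact sub_eq_zero.mp (congrArg Subtype.val h)
  obtain ⟨c, hc⟩ := Module.End.exists_eigenvalue S
  obtain ⟨v, hv⟩ := hc.exists_hasEigenvector
  have h1 : S v = c • v := hv.apply_eq_smul
  have h2 : B v = c • A v := by
    have h3 := congrArg E h1
    have h4 : E (S v) = B v := E.apply_symm_apply (B v)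
    have h5 : E (c • v) = c • A v := map_smul E c v
    rw [← h4, h3, h5]
  refine ⟨c, fun x hx y hy => ?_⟩
  have h6 := radical hL (BL - c • TL (R.H.obj M))
    (fun w hw x hx y hy => by
      rw [LinearMap.sub_apply, LinearMap.sub_apply, LinearMap.sub_apply, LinearMap.sub_apply,
        LinearMap.smul_apply, LinearMap.smul_apply, LinearMap.smul_apply, LinearMap.smul_apply,
        hTinv w hw x hx y hy, hBinv w hw x hx y hy])
    v.2 (fun h => hv.2 (Subtype.ext h))
    (fun y hy => by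
      have h7 := congrArg (fun f => f ⟨y, hy⟩) h2
      have h8 : BL v y = c * TL (R.H.obj M) v y := h7
      rw [LinearMap.sub_apply, LinearMap.sub_apply, LinearMap.smul_apply, LinearMap.smul_apply,
        h8, smul_eq_mul, sub_self]) x hx y hy
  rw [LinearMap.sub_apply, LinearMap.sub_apply, LinearMap.smul_apply, LinearMap.smul_apply,
    hBL, TL_apply, smul_eq_mul] at h6
  exact sub_eq_zero.mp h6

/-- Sums of derivations. -/
lemma exists_sum {J : Type} (s : Finset J) (d : J → TDer R) :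
    ∃ D : TDer R, ∀ X : C, D.op X = ∑ j ∈ s, (d j).op X := by
  classical
  induction s using Finset.induction_on with
  | empty => exact ⟨TDer.zero, fun X => by rw [Finset.sum_empty]; rfl⟩
  | insert a s ha ih =>
    obtain ⟨D, hD⟩ := ih
    refine ⟨(d a).add D, fun X => ?_⟩
    rw [Finset.sum_insert ha, ← hD X]
    rfl

variable {J : Type}

/-- The Lie algebras of the objects `A j` are independent: for all values `x j` of trace zero there is one
derivation with these values. -/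
def Independent (R : SuperRealisation C K) (A : J → C) : Prop :=
  ∀ x : ∀ j, R.H.obj (A j) ⟶ R.H.obj (A j), (∀ j, x j ∈ W0 R (A j)) →
    ∃ d : TDer R, ∀ j, d.op (A j) = x j

/-- The derivations on `P` are determined by those on the `A j`: a derivation which is zero on the `A j`
is zero on `P`, and a derivation which is a scalar on each `A j` is a scalar on `P`. -/
def GovernedBy (R : SuperRealisation C K) (A : J → C) (P : C) : Prop :=
  (∀ d : TDer R, (∀ j, d.op (A j) = 0) → d.op P = 0) ∧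
    ∀ d : TDer R, (∀ j, ∃ t : K, d.op (A j) = t • 𝟙 _) → ∃ t : K, d.op P = t • 𝟙 _

/-- The derivation `d` is of trace zero on `A j` and zero on the other objects. -/
def SupportedAt (A : J → C) (j : J) (d : TDer R) : Prop :=
  d.op (A j) ∈ W0 R (A j) ∧ ∀ k, k ≠ j → d.op (A k) = 0

/-- The `j`-th Lie algebra acts on `P`. -/
def ActsOn (R : SuperRealisation C K) (A : J → C) (j : J) (P : C) : Prop :=
  ∃ d : TDer R, SupportedAt A j d ∧ d.op P ≠ 0

variable {A : J → C} {P : C}

lemma exists_supported (hind : Independent R A) {j : J} {x : R.H.obj (A j) ⟶ R.H.obj (A j)}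
    (hx : x ∈ W0 R (A j)) : ∃ d : TDer R, SupportedAt A j d ∧ d.op (A j) = x := by
  classical
  obtain ⟨d, hd⟩ := hind (Function.update (fun k => (0 : R.H.obj (A k) ⟶ R.H.obj (A k))) j x) (by
    intro k
    by_cases hk : k = j
    · subst hk
      rw [Function.update_self]
      exact hx
    · rw [Function.update_of_ne hk]
      exact zero_mem _)
  have h1 : d.op (A j) = x := by rw [hd j, Function.update_self]
  refine ⟨d, ⟨by rw [h1]; exact hx, fun k hk => ?_⟩, h1⟩
  rw [hd k, Function.update_of_ne hk]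

lemma eq_on (hP : ∀ d : TDer R, (∀ j, d.op (A j) = 0) → d.op P = 0) {d d' : TDer R}
    (h : ∀ j, d.op (A j) = d'.op (A j)) : d.op P = d'.op P := by
  have h1 : d.op P + (-1 : K) • d'.op P = 0 := hP (d.add (TDer.smul (-1) d')) (by
    intro j
    change d.op (A j) + (-1 : K) • d'.op (A j) = 0
    rw [h, neg_one_smul, add_neg_cancel])
  rw [neg_one_smul] at h1
  exact add_neg_eq_zero.mp h1

lemma eq_on_supported (hP : ∀ d : TDer R, (∀ j, d.op (A j) = 0) → d.op P = 0) {j : J}
    {d d' : TDer R} (hd : SupportedAt A j d) (hd' : SupportedAt A j d')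
    (h : d.op (A j) = d'.op (A j)) : d.op P = d'.op P := by
  refine eq_on hP fun k => ?_
  by_cases hk : k = j
  · subst hk
    exact h
  · rw [hd.2 k hk, hd'.2 k hk]

lemma SupportedAt.add {j : J} {a b : TDer R} (ha : SupportedAt A j a) (hb : SupportedAt A j b) :
    SupportedAt A j (a.add b) :=
  ⟨add_mem ha.1 hb.1, fun k hk => by
    change a.op (A k) + b.op (A k) = 0
    rw [ha.2 k hk, hb.2 k hk, add_zero]⟩

lemma SupportedAt.smul {j : J} {a : TDer R} (r : K) (ha : SupportedAt A j a) :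
    SupportedAt A j (TDer.smul r a) :=
  ⟨Submodule.smul_mem _ r ha.1, fun k hk => by
    change r • a.op (A k) = 0
    rw [ha.2 k hk, smul_zero]⟩

lemma SupportedAt.bracket {j : J} {a b : TDer R} (ha : SupportedAt A j a)
    (hb : SupportedAt A j b) : SupportedAt A j (a.bracket b) :=
  ⟨bracket_mem (W0_le ha.1) (W0_le hb.1), fun k hk => by
    change a.op (A k) ≫ b.op (A k) - b.op (A k) ≫ a.op (A k) = 0
    rw [ha.2 k hk, hb.2 k hk, comp_zero, sub_self]⟩

lemma exists_rhoJ (hind : Independent R A)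
    (hP : ∀ d : TDer R, (∀ j, d.op (A j) = 0) → d.op P = 0) (j : J) :
    ∃ ρ : (R.H.obj (A j) ⟶ R.H.obj (A j)) →ₗ[K] (R.H.obj P ⟶ R.H.obj P),
      ∀ d : TDer R, SupportedAt A j d → ρ (d.op (A j)) = d.op P := by
  classical
  have ex : ∀ x : W0 R (A j), ∃ d : TDer R, SupportedAt A j d ∧ d.op (A j) = x :=
    fun x => exists_supported hind x.2
  choose D hD1 hD2 using ex
  let f : W0 R (A j) →ₗ[K] (R.H.obj P ⟶ R.H.obj P) :=
    { toFun := fun x => (D x).op P
      map_add' := fun x y => by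
        refine eq_on_supported hP (hD1 (x + y)) ((hD1 x).add (hD1 y)) ?_
        rw [hD2 (x + y)]
        change (x : R.H.obj (A j) ⟶ R.H.obj (A j)) + y = (D x).op (A j) + (D y).op (A j)
        rw [hD2, hD2]
      map_smul' := fun r x => by
        refine eq_on_supported hP (hD1 (r • x)) ((hD1 x).smul r) ?_
        rw [hD2 (r • x)]
        change r • (x : R.H.obj (A j) ⟶ R.H.obj (A j)) = r • (D x).op (A j)
        rw [hD2] }
  obtain ⟨g, hg⟩ := f.exists_extend
  refine ⟨g, fun d hd => ?_⟩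
  have h1 : g (d.op (A j)) = f ⟨d.op (A j), hd.1⟩ := LinearMap.congr_fun hg ⟨d.op (A j), hd.1⟩
  rw [h1]
  exact eq_on_supported hP (hD1 _) hd (hD2 _)

end

end Pool.Agent.K3h43.ORD
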