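import Pool.Agent.K3h43.ORD.Semi

/-!
# Ordinary reduction and the simple factors of the motivic Lie algebra
-/

set_option autoImplicit false
set_option linter.unusedSectionVars false
set_option linter.unusedSimpArgs false
set_option backward.isDefEq.respectTransparency false
set_option backward.defeqAttrib.useBackward true

open CategoryTheory Limits MonoidalCategory
open Pool.Agent.Y112.SR Pool.Agent.Y112.KD Pool.Agent.Y112.SC Pool.Agent.K3h63.CC
open Pool.Agent.K3h43.NWS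

namespace Pool.Agent.K3h43.ORD

universe v u w

open Functor.LaxMonoidal Functor.OplaxMonoidal

section

variable {K : Type w} [Field K] [CharZero K]

lemma exists_phi : ∃ φ : K →+ ℚ, ∀ q : ℚ, φ (q : K) = q := by
  have h : Function.Injective (Algebra.linearMap ℚ K) := (algebraMap ℚ K).injective
  obtain ⟨g, hg⟩ := (Algebra.linearMap ℚ K).exists_leftInverse_of_injective
    (LinearMap.ker_eq_bot.mpr h)
  refine ⟨g.toAddMonoidHom, fun q => ?_⟩
  have h1 := LinearMap.congr_fun hg q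
  have h2 : (Algebra.linearMap ℚ K) q = (q : K) := by
    rw [Algebra.linearMap_apply, eq_ratCast]
  rw [← h2]
  exact h1

lemma replica_rat {φ : K →+ ℚ} (hφ : ∀ q : ℚ, φ (q : K) = q) {V : ModuleCat.{w} K} {m : ℕ}
    (b : Module.Basis (Fin m) K V) (r : Fin m → ℚ) {f g : V ⟶ V}
    (hf : ∀ i, f.hom (b i) = (r i : K) • b i)
    (hg : IsReplica (fun a => (φ a : K)) (V := V) f.hom g.hom) : g = f := by
  refine hom_ext_basis b fun i => ?_
  have h1 : b i ∈ Module.End.maxGenEigenspace (f.hom : Module.End K V) (r i : K) := by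
    rw [Module.End.mem_maxGenEigenspace]
    refine ⟨1, ?_⟩
    rw [pow_one, LinearMap.sub_apply, LinearMap.smul_apply, Module.End.one_apply]
    exact sub_eq_zero.mpr (hf i)
  have h2 : g.hom (b i) = ((φ (r i : K) : ℚ) : K) • b i := hg _ _ h1
  rw [h2, hφ, hf]

lemma replica_zero {φ : K →+ ℚ} {V : ModuleCat.{w} K} {f g : V ⟶ V} (hf : f = 0)
    (hg : IsReplica (fun a => (φ a : K)) (V := V) f.hom g.hom) : g = 0 := by
  apply ModuleCat.hom_ext
  ext v
  have h1 : v ∈ Module.End.maxGenEigenspace (f.hom : Module.End K V) 0 := by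
    rw [Module.End.mem_maxGenEigenspace]
    refine ⟨1, ?_⟩
    rw [hf]
    simp
  have h2 : g.hom v = ((φ 0 : ℚ) : K) • v := hg 0 v h1
  rw [map_zero, Rat.cast_zero, zero_smul] at h2
  exact h2

end

section

variable {C : Type u} [Category.{v} C] [Preadditive C] [MonoidalCategory C] [SymmetricCategory C]
  {K : Type w} [Field K] [CharZero K] [IsAlgClosed K] {R : SuperRealisation C K} {J : Type}
  {A : J → C} {P : C}

lemma rhoJ_bracket (hind : Independent R A) {j : J}
    {ρ : (R.H.obj (A j) ⟶ R.H.obj (A j)) →ₗ[K] (R.H.obj P ⟶ R.H.obj P)}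
    (hρ : ∀ d : TDer R, SupportedAt A j d → ρ (d.op (A j)) = d.op P) :
    ∀ x ∈ W0 R (A j), ∀ y ∈ W0 R (A j), ρ (x ≫ y - y ≫ x) = ρ x ≫ ρ y - ρ y ≫ ρ x := by
  intro x hx y hy
  obtain ⟨a, ha, rfl⟩ := exists_supported hind hx
  obtain ⟨b, hb, rfl⟩ := exists_supported hind hy
  rw [hρ a ha, hρ b hb]
  exact hρ (a.bracket b) (ha.bracket hb)

/-- The coefficient of `P` at `j` is rational and nonnegative. -/
lemma coefficient (hind : Independent R A) (hP : GovernedBy R A P) (j : J)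
    (hL : SimpleLie R (A j)) (hW : Homotheties R (A j))
    (hV : ∃ T : SlopeOp R, TwoSlopes T (A j))
    (ρ : (R.H.obj (A j) ⟶ R.H.obj (A j)) →ₗ[K] (R.H.obj P ⟶ R.H.obj P))
    (hρ : ∀ d : TDer R, SupportedAt A j d → ρ (d.op (A j)) = d.op P) :
    ∃ α : ℚ, 0 ≤ α ∧ (0 < α ↔ ActsOn R A j P) ∧
      ∀ x ∈ W0 R (A j), ∀ y ∈ W0 R (A j), tr _ (ρ x ≫ ρ y) = (α : K) * tr _ (x ≫ y) := by
  classical
  obtain ⟨T, c, hc, a, b, hab⟩ := hV
  have hmem := traceless_mem hW T hc
  have hs : 0 < spread c := spread_pos hab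
  have htr := hc.tr_spread
  have hdiag : ∃ β : Module.Basis (Fin (Module.finrank K (R.H.obj (A j)))) K (R.H.obj (A j)),
      ∀ i, (T.op (A j) - ((avg c : ℚ) : K) • 𝟙 _).hom (β i) = ((c i - avg c : ℚ) : K) • β i := by
    obtain ⟨-, β, hβ⟩ := hc
    refine ⟨β, fun i => ?_⟩
    have e1 : (T.op (A j) - ((avg c : ℚ) : K) • 𝟙 _).hom (β i) =
      (T.op (A j)).hom (β i) - ((avg c : ℚ) : K) • β i := rfl
    rw [e1, hβ, Rat.cast_sub, sub_smul]
  obtain ⟨β, hβ⟩ := hdiag
  set x := T.op (A j) - ((avg c : ℚ) : K) • 𝟙 _ with hx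
  have hbr := rhoJ_bracket hind hρ
  obtain ⟨κ, hκ⟩ := proportional' hL hbr ⟨x, hmem, x, hmem, by
    rw [htr]
    exact_mod_cast hs.ne'⟩
  obtain ⟨φ, hφ⟩ := exists_phi (K := K)
  obtain ⟨d, hd, hdx⟩ := exists_supported hind hmem
  obtain ⟨θ, hθ⟩ := exists_slopeOp φ d
  have e1 : θ.op (A j) = d.op (A j) :=
    replica_rat hφ β (fun i => c i - avg c) (by rw [hdx]; exact hβ) (hθ (A j))
  have e2 : ∀ k, k ≠ j → θ.op (A k) = 0 := fun k hk => replica_zero (hd.2 k hk) (hθ (A k))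
  have e3 : θ.op P = d.op P := by
    refine eq_on (d := θ.toTDer) (d' := d) hP.1 fun k => ?_
    by_cases hk : k = j
    · subst hk
      exact e1
    · rw [hd.2 k hk]
      exact e2 k hk
  obtain ⟨c'', hc''⟩ := θ.exists_slopes P
  have e4 : tr _ (ρ x ≫ ρ x) = ((∑ i, c'' i ^ 2 : ℚ) : K) := by
    rw [← hdx, hρ d hd, ← e3, hc''.tr_sq]
    push_cast
    rfl
  have key := hκ x hmem x hmem
  rw [e4, htr] at key
  have hκα : κ = (((∑ i, c'' i ^ 2) / spread c : ℚ) : K) := by
    rw [Rat.cast_div, key, mul_div_assoc, div_self, mul_one]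
    exact_mod_cast hs.ne'
  have hnn : 0 ≤ (∑ i, c'' i ^ 2) / spread c :=
    div_nonneg (Finset.sum_nonneg fun i _ => sq_nonneg _) hs.le
  refine ⟨(∑ i, c'' i ^ 2) / spread c, hnn, ⟨fun h => ⟨d, hd, fun h0 => ?_⟩, ?_⟩,
    fun x hx y hy => by rw [← hκα]; exact hκ x hx y hy⟩
  · have h1 : ((∑ i, c'' i ^ 2 : ℚ) : K) = 0 := by
      rw [← e4, ← hdx, hρ d hd, h0, zero_comp, map_zero]
    have h2 : ∑ i, c'' i ^ 2 = 0 := by exact_mod_cast h1
    rw [h2, zero_div] at h
    exact lt_irrefl _ h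
  · rintro ⟨d', hd', hne⟩
    refine lt_of_le_of_ne hnn fun h0 => hne ?_
    have h1 : ∑ i, c'' i ^ 2 = 0 := by
      rcases div_eq_zero_iff.mp h0.symm with h | h
      · exact h
      · exact absurd h hs.ne'
    have h2 : ∀ i, c'' i = 0 := by
      intro i
      have h3 := (Finset.sum_eq_zero_iff_of_nonneg (s := Finset.univ)
        (f := fun i => c'' i ^ 2) fun i _ => sq_nonneg _).mp h1 i (Finset.mem_univ i)
      exact pow_eq_zero_iff (two_ne_zero) |>.mp h3
    have h3 : θ.op P = 0 := by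
      obtain ⟨-, γ, hγ⟩ := hc''
      refine hom_ext_basis γ fun i => ?_
      rw [hγ, h2 i, Rat.cast_zero, zero_smul]
      rfl
    have h4 : ρ x = 0 := by rw [← hdx, hρ d hd, ← e3, h3]
    let I : Submodule K (R.H.obj (A j) ⟶ R.H.obj (A j)) := W0 R (A j) ⊓ LinearMap.ker ρ
    rcases hL.2 I ⟨inf_le_left, fun w hw y hy => ⟨bracket_mem (W0_le hw) (W0_le hy.1), by
      have hy2 : ρ y = 0 := hy.2
      change ρ (w ≫ y - y ≫ w) = 0
      rw [hbr w hw y hy.1, hy2, comp_zero, zero_comp, sub_zero]⟩⟩ with h | h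
    · have h5 : x ∈ I := ⟨hmem, h4⟩
      rw [h] at h5
      have h6 : x = 0 := (Submodule.mem_bot K).mp h5
      rw [h6, zero_comp, map_zero] at htr
      exact absurd (by exact_mod_cast htr.symm) hs.ne'
    · have h5 : d'.op (A j) ∈ I := by rw [h]; exact hd'.1
      rw [← hρ d' hd']
      exact h5.2

/-- Different factors are orthogonal. -/
lemma cross (hind : Independent R A) (hP : ∀ d : TDer R, (∀ j, d.op (A j) = 0) → d.op P = 0)
    {j k : J} (hjk : j ≠ k) (hL : SimpleLie R (A j))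
    {ρ : (R.H.obj (A j) ⟶ R.H.obj (A j)) →ₗ[K] (R.H.obj P ⟶ R.H.obj P)}
    (hρ : ∀ d : TDer R, SupportedAt A j d → ρ (d.op (A j)) = d.op P)
    {b : TDer R} (hb : SupportedAt A k b) :
    ∀ x ∈ W0 R (A j), tr _ (ρ x ≫ b.op P) = 0 := by
  classical
  refine functional_zero hL (((TL (R.H.obj P)).flip (b.op P)) ∘ₗ ρ) fun u hu v hv => ?_
  obtain ⟨p, hp, rfl⟩ := exists_supported hind hu
  obtain ⟨q, hq, rfl⟩ := exists_supported hind hv
  have e1 : ρ (p.op (A j) ≫ q.op (A j) - q.op (A j) ≫ p.op (A j)) =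
      p.op P ≫ q.op P - q.op P ≫ p.op P := hρ (p.bracket q) (hp.bracket hq)
  change tr _ (ρ (p.op (A j) ≫ q.op (A j) - q.op (A j) ≫ p.op (A j)) ≫ b.op P) = 0
  rw [e1, tr_inv]
  have e2 : b.op P ≫ p.op P - p.op P ≫ b.op P = 0 := hP (b.bracket p) (by
    intro m
    change b.op (A m) ≫ p.op (A m) - p.op (A m) ≫ b.op (A m) = 0
    by_cases hm : m = j
    · subst hm
      rw [hb.2 m hjk, comp_zero, zero_comp, sub_self]
    · rw [hp.2 m hm, comp_zero, zero_comp, sub_self])
  rw [e2, comp_zero, map_zero]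

/-- **The spread of `P` is the sum of the spreads of the factors.** -/
theorem semi_spread [Fintype J] (hind : Independent R A) (hL : ∀ j, SimpleLie R (A j))
    (hW : ∀ j, Homotheties R (A j)) (hV : ∀ j, ∃ T : SlopeOp R, TwoSlopes T (A j))
    (hP : GovernedBy R A P) (hP0 : Module.finrank K (R.H.obj P) ≠ 0) :
    ∃ α : J → ℚ, (∀ j, 0 ≤ α j ∧ (0 < α j ↔ ActsOn R A j P)) ∧
      ∀ (θ : SlopeOp R) (c : ∀ j, Fin (Module.finrank K (R.H.obj (A j))) → ℚ)
        (c' : Fin (Module.finrank K (R.H.obj P)) → ℚ), (∀ j, HasSlopes θ (A j) (c j)) →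
        HasSlopes θ P c' → spread c' = ∑ j, α j * spread (c j) := by
  classical
  choose ρ hρ using fun j => exists_rhoJ (P := P) hind hP.1 j
  choose α h1 h2 h3 using fun j => coefficient hind hP j (hL j) (hW j) (hV j) (ρ j) (hρ j)
  refine ⟨α, fun j => ⟨h1 j, h2 j⟩, fun θ c c' hc hc' => ?_⟩
  have hx : ∀ j, θ.op (A j) - ((avg (c j) : ℚ) : K) • 𝟙 _ ∈ W0 R (A j) :=
    fun j => traceless_mem (hW j) θ (hc j)
  choose d hd hdx using fun j => exists_supported hind (hx j)
  obtain ⟨D, hD⟩ := exists_sum Finset.univ d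
  have hDA : ∀ j, D.op (A j) = θ.op (A j) - ((avg (c j) : ℚ) : K) • 𝟙 _ := by
    intro j
    rw [hD, Finset.sum_eq_single j (fun k _ hk => (hd k).2 j (Ne.symm hk))
      (fun h => absurd (Finset.mem_univ j) h)]
    exact hdx j
  have hρd : ∀ j, (d j).op P = ρ j (θ.op (A j) - ((avg (c j) : ℚ) : K) • 𝟙 _) := by
    intro j
    rw [← hρ j (d j) (hd j), hdx j]
  have hDP : D.op P = ∑ j, (d j).op P := hD P
  have htr : tr _ (D.op P) = 0 := by
    rw [hDP, map_sum]
    refine Finset.sum_eq_zero fun j _ => ?_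
    rw [hρd j]
    refine functional_zero (hL j) (tr _ ∘ₗ ρ j) (fun u hu v hv => ?_) _ (hx j)
    change tr _ (ρ j (u ≫ v - v ≫ u)) = 0
    rw [rhoJ_bracket hind (hρ j) u hu v hv, map_sub, tr_swap, sub_self]
  obtain ⟨s, hs⟩ := hP.2 (θ.toTDer.add (TDer.smul (-1) D)) (fun j => ⟨((avg (c j) : ℚ) : K), by
    change θ.op (A j) + (-1 : K) • D.op (A j) = _
    rw [hDA j, neg_one_smul, neg_sub, add_sub_cancel]⟩)
  have hs' : D.op P = θ.op P - s • 𝟙 _ := by
    have h4 : θ.op P + (-1 : K) • D.op P = s • 𝟙 _ := hs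
    rw [← h4, neg_one_smul]
    abel
  have hP1 : (Module.finrank K (R.H.obj P) : K) ≠ 0 := by exact_mod_cast hP0
  have hsum : ∑ i, (c' i : K) = ((avg c' : ℚ) : K) * (Module.finrank K (R.H.obj P) : K) := by
    exact_mod_cast congrArg (fun x : ℚ => (x : K)) (avg_mul c')
  have hs2 : s = ((avg c' : ℚ) : K) := by
    rw [hs', map_sub, map_smul, hc'.tr_first, tr_id, smul_eq_mul, hsum, sub_eq_zero] at htr
    exact (mul_right_cancel₀ hP1 htr).symm
  have hsq : tr _ (D.op P ≫ D.op P) = ((spread c' : ℚ) : K) := by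
    rw [hs', hs2]
    exact hc'.tr_spread
  have hexp : tr _ (D.op P ≫ D.op P) = ∑ j, (α j : K) * ((spread (c j) : ℚ) : K) := by
    rw [hDP, Preadditive.sum_comp, map_sum]
    refine Finset.sum_congr rfl fun j _ => ?_
    rw [Preadditive.comp_sum, map_sum, Finset.sum_eq_single j]
    · rw [hρd j, h3 j _ (hx j) _ (hx j), (hc j).tr_spread]
    · intro k _ hk
      rw [hρd j]
      exact cross hind hP.1 (Ne.symm hk) (hL j) (hρ j) (hd k) _ (hx j)
    · exact fun h => absurd (Finset.mem_univ j) h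
  have hfin := hsq.symm.trans hexp
  exact_mod_cast hfin

lemma governedBy_self (A : J → C) (j : J) : GovernedBy R A (A j) := ⟨fun _ h => h j, fun _ h => h j⟩

lemma governedBy_tensor {P Q : C} (hP : GovernedBy R A P) (hQ : GovernedBy R A Q) :
    GovernedBy R A (P ⊗ Q) := by
  constructor
  · intro d hd
    rw [d.op_tensor, hP.1 d hd, hQ.1 d hd, bx_zero_right, bx_zero_left, add_zero]
  · intro d hd
    obtain ⟨t, ht⟩ := hP.2 d hd
    obtain ⟨t', ht'⟩ := hQ.2 d hd
    refine ⟨t + t', ?_⟩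
    rw [d.op_tensor, ht, ht', bx_smul_left, bx_smul_right, bx_one, ← add_smul]

lemma governedBy_summand {P Q : C} (hQ : GovernedBy R A Q) (i : P ⟶ Q) (r : Q ⟶ P)
    (hir : i ≫ r = 𝟙 P) : GovernedBy R A P := by
  have h1 : R.H.map i ≫ R.H.map r = 𝟙 _ := by
    rw [← Functor.map_comp, hir, CategoryTheory.Functor.map_id]
  have h2 : ∀ d : TDer R, d.op P = R.H.map i ≫ d.op Q ≫ R.H.map r := by
    intro d
    calc d.op P = d.op P ≫ (R.H.map i ≫ R.H.map r) := by rw [h1, Category.comp_id]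
      _ = R.H.map i ≫ d.op Q ≫ R.H.map r := by
        rw [← Category.assoc, ← d.natural i, Category.assoc]
  constructor
  · intro d hd
    rw [h2 d, hQ.1 d hd, zero_comp, comp_zero]
  · intro d hd
    obtain ⟨t, ht⟩ := hQ.2 d hd
    refine ⟨t, ?_⟩
    rw [h2 d, ht, Linear.smul_comp, Linear.comp_smul, Category.id_comp, h1]

lemma factor_scalar {P Q : C} (hP0 : Module.finrank K (R.H.obj P) ≠ 0) (d : TDer R) {t t' : K}
    (h : d.op P = t • 𝟙 _) (h' : d.op (P ⊗ Q) = t' • 𝟙 _) : d.op Q = (t' - t) • 𝟙 _ := by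
  have h1 := d.op_tensor P Q
  rw [h, h', bx_smul_left, bx_one] at h1
  set z := d.op Q - (t' - t) • 𝟙 _ with hz
  have h2 : bx R (𝟙 (R.H.obj P)) z = 0 := by
    rw [hz, bx_sub_right, bx_smul_right, bx_one, sub_smul, h1]
    abel
  have h3 : z = 0 := tr_nd (R.finite Q) _ fun y => by
    have h4 := tr_bx (𝟙 (R.H.obj P)) (z ≫ y)
    have h5 : bx R (𝟙 (R.H.obj P)) (z ≫ y) = bx R (𝟙 _) z ≫ bx R (𝟙 _) y := by
      rw [bx_comp, Category.comp_id]
    rw [h5, h2, zero_comp, map_zero, tr_id] at h4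
    exact (mul_eq_zero.mp h4.symm).resolve_left (by exact_mod_cast hP0)
  exact sub_eq_zero.mp h3

lemma governedBy_factor {P Q : C} (hP0 : Module.finrank K (R.H.obj P) ≠ 0)
    (hP : GovernedBy R A P) (hPQ : GovernedBy R A (P ⊗ Q)) : GovernedBy R A Q := by
  constructor
  · intro d hd
    have h1 : d.op P = (0 : K) • 𝟙 _ := by rw [hP.1 d hd, zero_smul]
    have h2 : d.op (P ⊗ Q) = (0 : K) • 𝟙 _ := by rw [hPQ.1 d hd, zero_smul]
    rw [factor_scalar hP0 d h1 h2, sub_zero, zero_smul]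
  · intro d hd
    obtain ⟨t, ht⟩ := hP.2 d hd
    obtain ⟨t', ht'⟩ := hPQ.2 d hd
    exact ⟨t' - t, factor_scalar hP0 d ht ht'⟩

lemma spread_le {d : ℕ} {c h : Fin d → ℚ} (hc : Monotone c)
    (hp : ∀ k, k ≤ d → polygon h k ≤ polygon c k) (hd : polygon h d = polygon c d) :
    spread c ≤ spread h := by
  have e3 := eq_of_moment hc hp hd
  have havg : avg h = avg c := by
    rw [polygon_top, polygon_top] at hd
    rw [avg, avg, hd]
  rw [spread_eq, spread_eq, havg]
  have h4 : 0 ≤ ∑ i, (h i - c i) ^ 2 := Finset.sum_nonneg fun i _ => sq_nonneg _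
  linarith

/-- If the spreads are proportional then ordinarity of `P` implies that of `Q`. -/
theorem ordinary_of_spread {P Q : C} {r : ℚ} (hr : 0 < r)
    (h2 : ∀ (θ : SlopeOp R) (c : Fin (Module.finrank K (R.H.obj P)) → ℚ)
      (c' : Fin (Module.finrank K (R.H.obj Q)) → ℚ), HasSlopes θ P c → HasSlopes θ Q c' →
      spread c' = r * spread c) (N T : SlopeOp R) (hNT : NewtonAboveHodge N T Q)
    (ho : Ordinary N T P) : Ordinary N T Q := by
  obtain ⟨c, hN, hT⟩ := ho
  obtain ⟨c', hc'⟩ := N.exists_slopes Q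
  obtain ⟨h', hh'⟩ := T.exists_slopes Q
  obtain ⟨p1, p2⟩ := hNT c' h' hc' hh'
  have e5 : h' = c' := eq_of_spread hc'.1 p1 p2
    ((h2 T c h' hT hh').trans (h2 N c c' hN hc').symm)
  exact ⟨c', hc', e5 ▸ hh'⟩

/-- **`P` is ordinary if and only if all factors which act on `P` are ordinary.** -/
theorem semi_ordinary [Fintype J] (hind : Independent R A) (hL : ∀ j, SimpleLie R (A j))
    (hW : ∀ j, Homotheties R (A j)) (hV : ∀ j, ∃ T : SlopeOp R, TwoSlopes T (A j))
    (hP : GovernedBy R A P) (hP0 : Module.finrank K (R.H.obj P) ≠ 0) (N T : SlopeOp R) :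
    (NewtonAboveHodge N T P → (∀ j, ActsOn R A j P → Ordinary N T (A j)) → Ordinary N T P) ∧
      ((∀ j, ActsOn R A j P → NewtonAboveHodge N T (A j)) → Ordinary N T P →
        ∀ j, ActsOn R A j P → Ordinary N T (A j)) := by
  classical
  obtain ⟨α, h1, h2⟩ := semi_spread hind hL hW hV hP hP0
  constructor
  · intro hM ho
    have ex : ∀ j, ∃ cN cT, HasSlopes N (A j) cN ∧ HasSlopes T (A j) cT ∧
        (ActsOn R A j P → cN = cT) := by
      intro j
      by_cases hj : ActsOn R A j P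
      · obtain ⟨c, hN, hT⟩ := ho j hj
        exact ⟨c, c, hN, hT, fun _ => rfl⟩
      · obtain ⟨cN, hN⟩ := N.exists_slopes (A j)
        obtain ⟨cT, hT⟩ := T.exists_slopes (A j)
        exact ⟨cN, cT, hN, hT, fun h => absurd h hj⟩
    choose cN cT hN hT hNT using ex
    obtain ⟨c', hc'⟩ := N.exists_slopes P
    obtain ⟨h', hh'⟩ := T.exists_slopes P
    obtain ⟨p1, p2⟩ := hM c' h' hc' hh'
    have e1 := h2 N cN c' hN hc'
    have e2 := h2 T cT h' hT hh'
    have e3 : spread h' = spread c' := by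
      rw [e1, e2]
      refine Finset.sum_congr rfl fun j _ => ?_
      by_cases hj : ActsOn R A j P
      · rw [hNT j hj]
      · have e4 : α j = 0 := le_antisymm (not_lt.mp fun h => hj ((h1 j).2.mp h)) (h1 j).1
        rw [e4, zero_mul, zero_mul]
    have e5 : h' = c' := eq_of_spread hc'.1 p1 p2 e3
    exact ⟨c', hc', e5 ▸ hh'⟩
  · rintro hM ⟨c', hN', hT'⟩ j hj
    choose cN hN using fun j => N.exists_slopes (A j)
    choose cT hT using fun j => T.exists_slopes (A j)
    have e1 := h2 N cN c' hN hN'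
    have e2 := h2 T cT c' hT hT'
    have hle : ∀ k, 0 ≤ α k * (spread (cT k) - spread (cN k)) := by
      intro k
      by_cases hk : ActsOn R A k P
      · obtain ⟨p1, p2⟩ := hM k hk _ _ (hN k) (hT k)
        exact mul_nonneg (h1 k).1 (sub_nonneg.mpr (spread_le (hN k).1 p1 p2))
      · have e4 : α k = 0 := le_antisymm (not_lt.mp fun h => hk ((h1 k).2.mp h)) (h1 k).1
        rw [e4, zero_mul]
    have hzero : ∑ k, α k * (spread (cT k) - spread (cN k)) = 0 := by
      simp only [mul_sub]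
      rw [Finset.sum_sub_distrib, ← e1, ← e2, sub_self]
    have e3 := (Finset.sum_eq_zero_iff_of_nonneg (s := Finset.univ)
      (f := fun k => α k * (spread (cT k) - spread (cN k))) fun k _ => hle k).mp hzero j
      (Finset.mem_univ j)
    have e4 : spread (cT j) = spread (cN j) := by
      rcases mul_eq_zero.mp e3 with h | h
      · exact absurd h ((h1 j).2.mpr hj).ne'
      · linarith
    obtain ⟨p1, p2⟩ := hM j hj _ _ (hN j) (hT j)
    have e5 : cT j = cN j := eq_of_spread (hN j).1 p1 p2 e4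
    exact ⟨cN j, hN j, e5 ▸ hT j⟩

end

end Pool.Agent.K3h43.ORD
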