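import Pool.Agent.K3h43.ORD.Lie

/-!
# Motives with a simple Lie algebra: the trace forms are proportional
-/

set_option autoImplicit false
set_option linter.unusedSectionVars false
set_option linter.unusedSimpArgs false
set_option backward.isDefEq.respectTransparency false
set_option backward.defeqAttrib.useBackward true

open CategoryTheory Limits MonoidalCategory
open Pool.Agent.Y112.SR Pool.Agent.Y112.KD Pool.Agent.Y112.SC Pool.Agent.K3h63.CC
open Pool.Agent.K3h43.NWS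

namespace Pool.Agent.K3h43.ORD

universe v u w

open Functor.LaxMonoidal Functor.OplaxMonoidal

section

variable {C : Type u} [Category.{v} C] [Preadditive C] [MonoidalCategory C] [SymmetricCategory C]
  {K : Type w} [Field K] {R : SuperRealisation C K} {M P : C}

/-- The derivations of the realisation of `P` are determined by those of `M`: there is a constant `κ`
such that a derivation which is the scalar `t` on `M` is the scalar `κ t` on `P`. -/
def Governs (R : SuperRealisation C K) (M P : C) : Prop :=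
  ∃ κ : K, ∀ (d : TDer R) (t : K), d.op M = t • 𝟙 _ → d.op P = (κ * t) • 𝟙 _

lemma governs_self (M : C) : Governs R M M := ⟨1, fun _ t h => by rw [h, one_mul]⟩

lemma governs_unit (M : C) : Governs R M (𝟙_ C) := ⟨0, fun d t _ => by
  rw [d.unit, zero_mul, zero_smul]⟩

lemma governs_tensor {P Q : C} (hP : Governs R M P) (hQ : Governs R M Q) :
    Governs R M (P ⊗ Q) := by
  obtain ⟨κ, h⟩ := hP
  obtain ⟨κ', h'⟩ := hQ
  refine ⟨κ + κ', fun d t hd => ?_⟩
  rw [d.op_tensor, h d t hd, h' d t hd, bx_smul_left, bx_smul_right, bx_one, ← add_smul, add_mul]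

lemma governs_summand {P Q : C} (hQ : Governs R M Q) (i : P ⟶ Q) (r : Q ⟶ P) (hir : i ≫ r = 𝟙 P) :
    Governs R M P := by
  obtain ⟨κ, h⟩ := hQ
  refine ⟨κ, fun d t hd => ?_⟩
  have h1 : R.H.map i ≫ R.H.map r = 𝟙 _ := by
    rw [← Functor.map_comp, hir, CategoryTheory.Functor.map_id]
  calc d.op P = d.op P ≫ (R.H.map i ≫ R.H.map r) := by rw [h1, Category.comp_id]
    _ = R.H.map i ≫ d.op Q ≫ R.H.map r := by
        rw [← Category.assoc, ← d.natural i, Category.assoc]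
    _ = (κ * t) • 𝟙 _ := by
        rw [h d t hd, Linear.smul_comp, Linear.comp_smul, Category.id_comp, h1]

lemma exists_rho (hgen : ∀ d : TDer R, d.op M = 0 → d.op P = 0) :
    ∃ ρ : (R.H.obj M ⟶ R.H.obj M) →ₗ[K] (R.H.obj P ⟶ R.H.obj P),
      ∀ d : TDer R, ρ (d.op M) = d.op P := by
  classical
  have hwd : ∀ d d' : TDer R, d.op M = d'.op M → d.op P = d'.op P := by
    intro d d' h
    have h1 : d.op P + (-1 : K) • d'.op P = 0 := hgen (d.add (TDer.smul (-1) d')) (by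
      change d.op M + (-1 : K) • d'.op M = 0
      rw [h, neg_one_smul, add_neg_cancel])
    rw [neg_one_smul] at h1
    exact add_neg_eq_zero.mp h1
  let f : W R M →ₗ[K] (R.H.obj P ⟶ R.H.obj P) :=
    { toFun := fun x => x.2.choose.op P
      map_add' := fun x y => hwd _ (x.2.choose.add y.2.choose) (by
        rw [(x + y).2.choose_spec]
        change (x : R.H.obj M ⟶ R.H.obj M) + y = x.2.choose.op M + y.2.choose.op M
        rw [x.2.choose_spec, y.2.choose_spec])
      map_smul' := fun k x => hwd _ (TDer.smul k x.2.choose) (by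
        rw [(k • x).2.choose_spec]
        change k • (x : R.H.obj M ⟶ R.H.obj M) = k • x.2.choose.op M
        rw [x.2.choose_spec]) }
  obtain ⟨g, hg⟩ := f.exists_extend
  refine ⟨g, fun d => ?_⟩
  have h1 : g (d.op M) = f ⟨d.op M, d, rfl⟩ := LinearMap.congr_fun hg ⟨d.op M, d, rfl⟩
  rw [h1]
  exact hwd _ d (⟨d.op M, d, rfl⟩ : W R M).2.choose_spec

lemma W0_le {x : R.H.obj M ⟶ R.H.obj M} (hx : x ∈ W0 R M) : x ∈ W R M := hx.1

variable {ρ : (R.H.obj M ⟶ R.H.obj M) →ₗ[K] (R.H.obj P ⟶ R.H.obj P)}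

lemma rho_bracket (hρ : ∀ d : TDer R, ρ (d.op M) = d.op P) {x y : R.H.obj M ⟶ R.H.obj M}
    (hx : x ∈ W R M) (hy : y ∈ W R M) : ρ (x ≫ y - y ≫ x) = ρ x ≫ ρ y - ρ y ≫ ρ x := by
  obtain ⟨a, rfl⟩ := hx
  obtain ⟨b, rfl⟩ := hy
  rw [hρ a, hρ b]
  exact hρ (a.bracket b)

lemma tr_inv {V : ModuleCat.{w} K} (x y w : V ⟶ V) :
    tr V ((w ≫ x - x ≫ w) ≫ y) = tr V (x ≫ (y ≫ w - w ≫ y)) := by
  simp only [Preadditive.comp_sub, Preadditive.sub_comp, map_sub, Category.assoc]
  congr 1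
  rw [tr_swap, Category.assoc]

/-- The trace form of the module. -/
noncomputable def TL (V : ModuleCat.{w} K) : (V ⟶ V) →ₗ[K] (V ⟶ V) →ₗ[K] K :=
  LinearMap.mk₂ K (fun x y => tr V (x ≫ y))
    (fun x x' y => by rw [Preadditive.add_comp, map_add])
    (fun k x y => by rw [Linear.smul_comp, map_smul])
    (fun x y y' => by rw [Preadditive.comp_add, map_add])
    (fun k x y => by rw [Linear.comp_smul, map_smul])

lemma TL_apply {V : ModuleCat.{w} K} (x y : V ⟶ V) : TL V x y = tr V (x ≫ y) := rfl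

/-- An invariant form with a nonzero vector in the radical vanishes. -/
lemma radical (hL : SimpleLie R M)
    (β : (R.H.obj M ⟶ R.H.obj M) →ₗ[K] (R.H.obj M ⟶ R.H.obj M) →ₗ[K] K)
    (hβ : ∀ w ∈ W0 R M, ∀ x ∈ W0 R M, ∀ y ∈ W0 R M, β (w ≫ x - x ≫ w) y = β x (y ≫ w - w ≫ y))
    {x : R.H.obj M ⟶ R.H.obj M} (hx : x ∈ W0 R M) (hx0 : x ≠ 0) (hx' : ∀ y ∈ W0 R M, β x y = 0) :
    ∀ x ∈ W0 R M, ∀ y ∈ W0 R M, β x y = 0 := by
  let I : Submodule K (R.H.obj M ⟶ R.H.obj M) :=
    { carrier := {x | x ∈ W0 R M ∧ ∀ y ∈ W0 R M, β x y = 0}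
      add_mem' := by
        rintro a b ⟨ha, ha'⟩ ⟨hb, hb'⟩
        exact ⟨add_mem ha hb, fun y hy => by
          rw [map_add, LinearMap.add_apply, ha' y hy, hb' y hy, add_zero]⟩
      zero_mem' := ⟨zero_mem _, fun y _ => by rw [map_zero, LinearMap.zero_apply]⟩
      smul_mem' := by
        rintro k a ⟨ha, ha'⟩
        exact ⟨Submodule.smul_mem _ k ha, fun y hy => by
          rw [map_smul, LinearMap.smul_apply, ha' y hy, smul_zero]⟩ }
  rcases hL.2 I ⟨fun x hx => hx.1, fun w hw x hx => ⟨bracket_mem (W0_le hw) (W0_le hx.1),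
    fun y hy => by rw [hβ w hw x hx.1 y hy]; exact hx.2 _ (bracket_mem (W0_le hy) (W0_le hw))⟩⟩
    with h | h
  · have h1 : x ∈ I := ⟨hx, hx'⟩
    rw [h] at h1
    exact absurd ((Submodule.mem_bot K).mp h1) hx0
  · intro x hx
    have h1 : x ∈ I := by rw [h]; exact hx
    exact h1.2

/-- The characters of the Lie algebra vanish. -/
lemma lam_zero (hL : SimpleLie R M) (hρ : ∀ d : TDer R, ρ (d.op M) = d.op P) :
    ∀ x ∈ W0 R M, tr _ (ρ x) = 0 := by
  let I : Submodule K (R.H.obj M ⟶ R.H.obj M) := W0 R M ⊓ LinearMap.ker (tr (R.H.obj P) ∘ₗ ρ)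
  have hb : ∀ x ∈ W0 R M, ∀ y ∈ W0 R M, x ≫ y - y ≫ x ∈ I := by
    intro x hx y hy
    refine ⟨bracket_mem (W0_le hx) (W0_le hy), ?_⟩
    change tr _ (ρ (x ≫ y - y ≫ x)) = 0
    rw [rho_bracket hρ (W0_le hx) (W0_le hy), map_sub, tr_swap, sub_self]
  rcases hL.2 I ⟨fun x hx => hx.1, fun w hw x hx => hb w hw x hx.1⟩ with h | h
  · obtain ⟨⟨x, hx, y, hy, hxy⟩, -⟩ := hL
    have h1 := hb x hx y hy
    rw [h] at h1
    exact absurd (sub_eq_zero.mp ((Submodule.mem_bot K).mp h1)) hxy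
  · intro x hx
    have h1 : x ∈ I := by rw [h]; exact hx
    exact h1.2

/-- The trace forms are proportional. -/
theorem proportional [IsAlgClosed K] (hL : SimpleLie R M)
    (hρ : ∀ d : TDer R, ρ (d.op M) = d.op P)
    (hnd : ∃ x ∈ W0 R M, ∃ y ∈ W0 R M, tr _ (x ≫ y) ≠ 0) :
    ∃ c : K, ∀ x ∈ W0 R M, ∀ y ∈ W0 R M, tr _ (ρ x ≫ ρ y) = c * tr _ (x ≫ y) := by
  let BL := (TL (R.H.obj P)).compl₁₂ ρ ρ
  have hBL : ∀ x y, BL x y = tr _ (ρ x ≫ ρ y) := fun x y => rfl
  have hTinv : ∀ w ∈ W0 R M, ∀ x ∈ W0 R M, ∀ y ∈ W0 R M,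
      TL (R.H.obj M) (w ≫ x - x ≫ w) y = TL (R.H.obj M) x (y ≫ w - w ≫ y) :=
    fun w _ x _ y _ => tr_inv x y w
  have hBinv : ∀ w ∈ W0 R M, ∀ x ∈ W0 R M, ∀ y ∈ W0 R M,
      BL (w ≫ x - x ≫ w) y = BL x (y ≫ w - w ≫ y) := by
    intro w hw x hx y hy
    rw [hBL, hBL, rho_bracket hρ (W0_le hw) (W0_le hx), rho_bracket hρ (W0_le hy) (W0_le hw)]
    exact tr_inv _ _ _
  have hnd' : ∀ x ∈ W0 R M, (∀ y ∈ W0 R M, TL (R.H.obj M) x y = 0) → x = 0 := by
    intro x hx h
    by_contra h0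
    obtain ⟨a, ha, b, hb, hab⟩ := hnd
    exact hab (radical hL (TL (R.H.obj M)) hTinv hx h0 h a ha b hb)
  have hfin0 : Module.Finite K (R.H.obj M) := R.finite M
  have hfin : Module.Finite K (R.H.obj M ⟶ R.H.obj M) :=
    Module.Finite.equiv (ModuleCat.homLinearEquiv (S := K)).symm
  let A : (W0 R M) →ₗ[K] Module.Dual K (W0 R M) := (TL (R.H.obj M)).domRestrict₁₂ _ _
  let B : (W0 R M) →ₗ[K] Module.Dual K (W0 R M) := BL.domRestrict₁₂ _ _
  have hA : Function.Injective A := by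
    rw [injective_iff_map_eq_zero]
    intro x hx
    apply Subtype.ext
    refine hnd' x x.2 fun y hy => ?_
    exact congrArg (fun f => f ⟨y, hy⟩) hx
  let E := A.linearEquivOfInjective hA Subspace.dual_finrank_eq.symm
  let S : Module.End K (W0 R M) := E.symm.toLinearMap ∘ₗ B
  have hnt : Nontrivial (W0 R M) := by
    obtain ⟨⟨x, hx, y, hy, hxy⟩, -⟩ := hL
    refine ⟨⟨⟨x ≫ y - y ≫ x, bracket_mem (W0_le hx) (W0_le hy)⟩, 0, fun h => hxy ?_⟩⟩
    exact sub_eq_zero.mp (congrArg Subtype.val h)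
  obtain ⟨c, hc⟩ := Module.End.exists_eigenvalue S
  obtain ⟨v, hv⟩ := hc.exists_hasEigenvector
  have h1 : S v = c • v := hv.apply_eq_smul
  have h2 : B v = c • A v := by
    have h3 := congrArg E h1
    have h4 : E (S v) = B v := E.apply_symm_apply (B v)
    have h5 : E (c • v) = c • A v := map_smul E c v
    rw [← h4, h3, h5]
  refine ⟨c, fun x hx y hy => ?_⟩
  have h6 := radical hL (BL - c • TL (R.H.obj M))
    (fun w hw x hx y hy => by
      rw [LinearMap.sub_apply, LinearMap.sub_apply, LinearMap.sub_apply, LinearMap.sub_apply,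
        LinearMap.smul_apply, LinearMap.smul_apply, LinearMap.smul_apply, LinearMap.smul_apply,
        hTinv w hw x hx y hy, hBinv w hw x hx y hy])
    v.2 (fun h => hv.2 (Subtype.ext h))
    (fun y hy => by
      have h7 := congrArg (fun f => f ⟨y, hy⟩) h2
      have h8 : BL v y = c * TL (R.H.obj M) v y := h7
      rw [LinearMap.sub_apply, LinearMap.sub_apply, LinearMap.smul_apply, LinearMap.smul_apply,
        h8, smul_eq_mul, sub_self]) x hx y hy
  rw [LinearMap.sub_apply, LinearMap.sub_apply, LinearMap.smul_apply, LinearMap.smul_apply,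
    hBL, TL_apply, smul_eq_mul] at h6
  exact sub_eq_zero.mp h6

end

end Pool.Agent.K3h43.ORD
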