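import Pool.Agent.K3h43.ORD.Simple

/-!
# Ordinary reduction in the tensor category of a motive with a simple Lie algebra
-/

set_option autoImplicit false
set_option linter.unusedSectionVars false
set_option linter.unusedSimpArgs false
set_option backward.isDefEq.respectTransparency false
set_option backward.defeqAttrib.useBackward true

open CategoryTheory Limits MonoidalCategory
open Pool.Agent.Y112.SR Pool.Agent.Y112.KD Pool.Agent.Y112.SC Pool.Agent.K3h63.CC
open Pool.Agent.K3h43.NWS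

namespace Pool.Agent.K3h43.ORD

universe v u w

open Functor.LaxMonoidal Functor.OplaxMonoidal

/-- The average of the slopes. -/
def avg {d : ℕ} (c : Fin d → ℚ) : ℚ := (∑ i, c i) / d

/-- The sum of the squares of the distances of the slopes to their average. -/
def spread {d : ℕ} (c : Fin d → ℚ) : ℚ := ∑ i, (c i - avg c) ^ 2

lemma avg_mul {d : ℕ} (c : Fin d → ℚ) : ∑ i, c i = avg c * d := by
  rcases Nat.eq_zero_or_pos d with rfl | h
  · simp
  · rw [avg, div_mul_cancel₀]
    exact_mod_cast h.ne'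

lemma spread_eq {d : ℕ} (c : Fin d → ℚ) : spread c = ∑ i, c i ^ 2 - avg c ^ 2 * d := by
  have e1 : ∀ i, (c i - avg c) ^ 2 = c i ^ 2 - 2 * avg c * c i + avg c ^ 2 := fun i => by ring
  simp only [spread, e1]
  rw [Finset.sum_add_distrib, Finset.sum_sub_distrib, ← Finset.mul_sum, avg_mul c, Finset.sum_const,
    Finset.card_univ, Fintype.card_fin, nsmul_eq_mul]
  ring

lemma spread_nonneg {d : ℕ} (c : Fin d → ℚ) : 0 ≤ spread c := Finset.sum_nonneg fun _ _ => sq_nonneg _

lemma eq_avg {d : ℕ} {c : Fin d → ℚ} (h : spread c = 0) (j : Fin d) : c j = avg c := by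
  have h1 := (Finset.sum_eq_zero_iff_of_nonneg (s := Finset.univ)
    (f := fun j => (c j - avg c) ^ 2) fun j _ => sq_nonneg _).mp h
  have h3 := h1 j (Finset.mem_univ j)
  have h4 : c j - avg c = 0 := pow_eq_zero_iff (two_ne_zero) |>.mp h3
  linarith

lemma spread_pos {d : ℕ} {c : Fin d → ℚ} {a b : Fin d} (h : c a ≠ c b) : 0 < spread c :=
  lt_of_le_of_ne (spread_nonneg c) fun h0 => h ((eq_avg h0.symm a).trans (eq_avg h0.symm b).symm)

/-- Two lists of slopes with the same spread and one polygon above the other are equal. -/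
lemma eq_of_spread {d : ℕ} {c h : Fin d → ℚ} (hc : Monotone c)
    (hp : ∀ k, k ≤ d → polygon h k ≤ polygon c k) (hd : polygon h d = polygon c d)
    (h0 : spread h = spread c) : h = c := by
  have e3 := eq_of_moment hc hp hd
  have havg : avg h = avg c := by
    rw [polygon_top, polygon_top] at hd
    rw [avg, avg, hd]
  rw [spread_eq, spread_eq, havg] at h0
  have h1 : ∑ i, h i ^ 2 - ∑ i, c i ^ 2 = 0 := by linarith
  rw [h1] at e3
  have e4 : ∀ i, h i = c i := by
    intro i
    have e6 := (Finset.sum_eq_zero_iff_of_nonneg (s := Finset.univ)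
      (f := fun i => (h i - c i) ^ 2) fun i _ => sq_nonneg _).mp
      (le_antisymm e3 (Finset.sum_nonneg' fun i => sq_nonneg (h i - c i))) i
      (Finset.mem_univ i)
    have e7 : h i - c i = 0 := pow_eq_zero_iff (two_ne_zero) |>.mp e6
    linarith
  exact funext e4

section

variable {C : Type u} [Category.{v} C] [Preadditive C] [MonoidalCategory C] [SymmetricCategory C]
  {K : Type w} [Field K] {R : SuperRealisation C K}

lemma HasSlopes.tr_first {θ : SlopeOp R} {X : C} {c : Fin (Module.finrank K (R.H.obj X)) → ℚ}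
    (h : HasSlopes θ X c) : tr _ (θ.op X) = ∑ i, (c i : K) := by
  obtain ⟨b, hb⟩ := h.exists_dg
  rw [hb, tr_dg]

lemma tr_id (X : C) : tr _ (𝟙 (R.H.obj X)) = (Module.finrank K (R.H.obj X) : K) := by
  have := R.finite X
  rw [tr_apply]
  exact LinearMap.trace_one K _

/-- The trace of the square of the traceless part of the operator is the spread of the slopes. -/
lemma HasSlopes.tr_spread [CharZero K] {θ : SlopeOp R} {X : C}
    {c : Fin (Module.finrank K (R.H.obj X)) → ℚ} (h : HasSlopes θ X c) :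
    tr _ ((θ.op X - ((avg c : ℚ) : K) • 𝟙 _) ≫ (θ.op X - ((avg c : ℚ) : K) • 𝟙 _)) =
      ((spread c : ℚ) : K) := by
  rw [Preadditive.sub_comp, Preadditive.comp_sub, Preadditive.comp_sub, map_sub, map_sub, map_sub,
    Linear.comp_smul, Linear.smul_comp, Linear.smul_comp, Linear.comp_smul,
    Category.comp_id, Category.id_comp, Category.comp_id, map_smul, map_smul, map_smul,
    tr_id, h.tr_sq, h.tr_first, spread_eq]
  have h1 : ∑ i, (c i : K) = ((avg c : ℚ) : K) * (Module.finrank K (R.H.obj X) : K) := by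
    exact_mod_cast congrArg (fun x : ℚ => (x : K)) (avg_mul c)
  rw [h1]
  simp only [smul_eq_mul]
  push_cast
  ring

/-- Either the identity of the realisation of `M` is the value of a tensor derivation, or the values of all
the tensor derivations have trace zero. -/
def Homotheties (R : SuperRealisation C K) (M : C) : Prop :=
  (∃ d : TDer R, d.op M = 𝟙 _) ∨ ∀ d : TDer R, tr _ (d.op M) = 0

variable {M P : C}

lemma traceless_mem [CharZero K] (hW : Homotheties R M) (θ : SlopeOp R)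
    {c : Fin (Module.finrank K (R.H.obj M)) → ℚ} (hc : HasSlopes θ M c) :
    θ.op M - ((avg c : ℚ) : K) • 𝟙 _ ∈ W0 R M := by
  have h1 : tr _ (θ.op M - ((avg c : ℚ) : K) • 𝟙 _) = 0 := by
    rw [map_sub, map_smul, hc.tr_first, tr_id, smul_eq_mul, sub_eq_zero]
    exact_mod_cast congrArg (fun x : ℚ => (x : K)) (avg_mul c)
  refine ⟨?_, h1⟩
  have h2 : θ.op M ∈ W R M := ⟨θ.toTDer, rfl⟩
  rcases hW with ⟨d, hd⟩ | hd
  · exact sub_mem h2 (Submodule.smul_mem _ _ ⟨d, hd⟩)
  · have h3 : tr _ (θ.op M) = 0 := hd θ.toTDer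
    have h4 : ∑ i, c i = 0 := by
      rw [hc.tr_first] at h3
      exact_mod_cast h3
    have h5 : avg c = 0 := by rw [avg, h4, zero_div]
    rw [h5, Rat.cast_zero, zero_smul, sub_zero]
    exact h2

lemma rho_traceless [CharZero K] (hL : SimpleLie R M) (hW : Homotheties R M)
    {ρ : (R.H.obj M ⟶ R.H.obj M) →ₗ[K] (R.H.obj P ⟶ R.H.obj P)}
    (hρ : ∀ d : TDer R, ρ (d.op M) = d.op P) (hP : Governs R M P)
    (hP0 : Module.finrank K (R.H.obj P) ≠ 0) (θ : SlopeOp R)
    {c : Fin (Module.finrank K (R.H.obj M)) → ℚ} (hc : HasSlopes θ M c)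
    {c' : Fin (Module.finrank K (R.H.obj P)) → ℚ} (hc' : HasSlopes θ P c') :
    ρ (θ.op M - ((avg c : ℚ) : K) • 𝟙 _) = θ.op P - ((avg c' : ℚ) : K) • 𝟙 _ := by
  have hmem := traceless_mem hW θ hc
  have hlam := lam_zero hL hρ _ hmem
  have hP1 : (Module.finrank K (R.H.obj P) : K) ≠ 0 := by exact_mod_cast hP0
  have hs : ∑ i, (c' i : K) = ((avg c' : ℚ) : K) * (Module.finrank K (R.H.obj P) : K) := by
    exact_mod_cast congrArg (fun x : ℚ => (x : K)) (avg_mul c')
  -- the value is `θ - s` for a scalar `s`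
  obtain ⟨s, hs'⟩ : ∃ s : K, ρ (θ.op M - ((avg c : ℚ) : K) • 𝟙 _) = θ.op P - s • 𝟙 _ := by
    rcases hW with ⟨d, hd⟩ | hd
    · obtain ⟨κ, hκ⟩ := hP
      have h1 : d.op P = κ • 𝟙 _ := by
        have := hκ d 1 (by rw [hd, one_smul])
        rwa [mul_one] at this
      refine ⟨((avg c : ℚ) : K) * κ, ?_⟩
      rw [map_sub, map_smul, ← hd, hρ d, h1, smul_smul]
      congr 1
      exact hρ θ.toTDer
    · have h3 : tr _ (θ.op M) = 0 := hd θ.toTDer
      have h4 : ∑ i, c i = 0 := by
        rw [hc.tr_first] at h3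
        exact_mod_cast h3
      have h5 : avg c = 0 := by rw [avg, h4, zero_div]
      refine ⟨0, ?_⟩
      rw [h5, Rat.cast_zero, zero_smul, sub_zero, zero_smul, sub_zero]
      exact hρ θ.toTDer
  rw [hs', map_sub, map_smul, hc'.tr_first, tr_id, smul_eq_mul, hs, sub_eq_zero] at hlam
  rw [hs', mul_right_cancel₀ hP1 hlam]

/-- **The spreads are proportional.** -/
theorem simple_spread [CharZero K] [IsAlgClosed K] (hL : SimpleLie R M) (hW : Homotheties R M)
    (hP : Governs R M P) {T₁ : SlopeOp R} (hT₁ : TwoSlopes T₁ P) :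
    ∃ α : ℚ, 0 < α ∧
      ∀ (θ : SlopeOp R) (c : Fin (Module.finrank K (R.H.obj M)) → ℚ)
        (c' : Fin (Module.finrank K (R.H.obj P)) → ℚ), HasSlopes θ M c → HasSlopes θ P c' →
        spread c' = α * spread c := by
  obtain ⟨h', hh', a, b, hab⟩ := hT₁
  have hP0 : Module.finrank K (R.H.obj P) ≠ 0 := by
    intro h0
    have := a.isLt
    omega
  obtain ⟨h, hh⟩ := T₁.exists_slopes M
  obtain ⟨ρ, hρ⟩ := exists_rho (R := R) (M := M) (P := P) fun d hd => by
    obtain ⟨κ, hκ⟩ := hP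
    have := hκ d 0 (by rw [hd, zero_smul])
    rwa [mul_zero, zero_smul] at this
  have hmem := traceless_mem hW T₁ hh
  have hr := rho_traceless hL hW hρ hP hP0 T₁ hh hh'
  have hA' : 0 < spread h' := spread_pos hab
  have hA0 : spread h ≠ 0 := by
    intro h0
    have h3 : T₁.op M - ((avg h : ℚ) : K) • 𝟙 _ = 0 := by
      obtain ⟨-, β, hβ⟩ := hh
      refine hom_ext_basis β fun j => ?_
      have e1 : (T₁.op M - ((avg h : ℚ) : K) • 𝟙 _).hom (β j) =
        (T₁.op M).hom (β j) - ((avg h : ℚ) : K) • β j := rfl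
      rw [e1, hβ, eq_avg h0 j, sub_self]
      rfl
    rw [h3, map_zero] at hr
    have h4 := hh'.tr_spread
    rw [← hr, zero_comp, map_zero] at h4
    exact hA'.ne' (by exact_mod_cast h4.symm)
  have hA : 0 < spread h := lt_of_le_of_ne (spread_nonneg h) (Ne.symm hA0)
  obtain ⟨κ, hκ⟩ := proportional hL hρ ⟨_, hmem, _, hmem, by
    rw [hh.tr_spread]
    exact_mod_cast hA0⟩
  have key := hκ _ hmem _ hmem
  rw [hr, hh.tr_spread, hh'.tr_spread] at key
  have hκα : κ = ((spread h' / spread h : ℚ) : K) := by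
    rw [Rat.cast_div, key, mul_div_assoc, div_self, mul_one]
    exact_mod_cast hA0
  refine ⟨spread h' / spread h, div_pos hA' hA, fun θ c c' hc hc' => ?_⟩
  have k1 := hκ _ (traceless_mem hW θ hc) _ (traceless_mem hW θ hc)
  rw [rho_traceless hL hW hρ hP hP0 θ hc hc', hc.tr_spread, hc'.tr_spread, hκα] at k1
  exact_mod_cast k1

/-- **Two objects of the tensor category generated by `M`.** -/
theorem simple_pair [CharZero K] [IsAlgClosed K] (hL : SimpleLie R M) (hW : Homotheties R M)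
    {Q : C} (hP : Governs R M P) (hQ : Governs R M Q) {T₁ T₂ : SlopeOp R} (hT₁ : TwoSlopes T₁ P)
    (hT₂ : TwoSlopes T₂ Q) :
    ∃ α : ℚ, 0 < α ∧
      ∀ (θ : SlopeOp R) (c : Fin (Module.finrank K (R.H.obj P)) → ℚ)
        (c' : Fin (Module.finrank K (R.H.obj Q)) → ℚ), HasSlopes θ P c → HasSlopes θ Q c' →
        spread c' = α * spread c := by
  obtain ⟨a, ha, h1⟩ := simple_spread hL hW hP hT₁
  obtain ⟨b, hb, h2⟩ := simple_spread hL hW hQ hT₂
  refine ⟨b / a, div_pos hb ha, fun θ c c' hc hc' => ?_⟩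
  obtain ⟨h, hh⟩ := θ.exists_slopes M
  rw [h1 θ h c hh hc, h2 θ h c' hh hc']
  field_simp

/-- **Ordinary reduction in the tensor category generated by `M`.** -/
theorem simple_ordinary [CharZero K] [IsAlgClosed K] (hL : SimpleLie R M) (hW : Homotheties R M)
    {Q : C} (hP : Governs R M P) (hQ : Governs R M Q) {T₁ T₂ : SlopeOp R} (hT₁ : TwoSlopes T₁ P)
    (hT₂ : TwoSlopes T₂ Q) (N T : SlopeOp R) (hNT : NewtonAboveHodge N T Q)
    (ho : Ordinary N T P) : Ordinary N T Q := by
  obtain ⟨α, hα, h2⟩ := simple_pair hL hW hP hQ hT₁ hT₂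
  obtain ⟨c, hN, hT⟩ := ho
  obtain ⟨c', hc'⟩ := N.exists_slopes Q
  obtain ⟨h', hh'⟩ := T.exists_slopes Q
  obtain ⟨p1, p2⟩ := hNT c' h' hc' hh'
  have e5 : h' = c' := eq_of_spread hc'.1 p1 p2
    ((h2 T c h' hT hh').trans (h2 N c c' hN hc').symm)
  exact ⟨c', hc', e5 ▸ hh'⟩

lemma tr_bx {P Q : C} (a : R.H.obj P ⟶ R.H.obj P) (b : R.H.obj Q ⟶ R.H.obj Q) :
    tr _ (bx R a b) = tr _ a * tr _ b := by
  have hf := R.finite P
  have hf' := R.finite Q
  have h1 : tr _ (bx R a b) = tr (R.H.obj P ⊗ R.H.obj Q) (a ⊗ₘ b) := by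
    rw [bx, tr_comm (W := R.H.obj P ⊗ R.H.obj Q) (R.finite _)
      (show Module.Finite K (TensorProduct K (R.H.obj P) (R.H.obj Q)) from inferInstance),
      Category.assoc, Functor.Monoidal.μ_δ, Category.comp_id]
  rw [h1, tr_apply, tr_apply, tr_apply]
  exact LinearMap.trace_tensorProduct' _ _

/-- Tensor factors. -/
lemma governs_factor [CharZero K] {P Q : C} (hP0 : Module.finrank K (R.H.obj P) ≠ 0)
    (hP : Governs R M P) (hPQ : Governs R M (P ⊗ Q)) : Governs R M Q := by
  obtain ⟨κ, h⟩ := hP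
  obtain ⟨κ', h'⟩ := hPQ
  refine ⟨κ' - κ, fun d t hd => ?_⟩
  have h1 := d.op_tensor P Q
  rw [h d t hd, h' d t hd, bx_smul_left, bx_one] at h1
  set z := d.op Q - ((κ' - κ) * t) • 𝟙 _ with hz
  have h2 : bx R (𝟙 (R.H.obj P)) z = 0 := by
    rw [hz, bx_sub_right, bx_smul_right, bx_one, sub_mul, sub_smul, h1]
    abel
  have h3 : z = 0 := tr_nd (R.finite Q) _ fun y => by
    have h4 := tr_bx (𝟙 (R.H.obj P)) (z ≫ y)
    have h5 : bx R (𝟙 (R.H.obj P)) (z ≫ y) = bx R (𝟙 _) z ≫ bx R (𝟙 _) y := by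
      rw [bx_comp, Category.comp_id]
    rw [h5, h2, zero_comp, map_zero, tr_id] at h4
    exact (mul_eq_zero.mp h4.symm).resolve_left (by exact_mod_cast hP0)
  exact sub_eq_zero.mp h3

end

end Pool.Agent.K3h43.ORD
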